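import Pool.Agent.Lib.H63H.D

/-! # H63H, chunk A2: cones; the complex of plane sets is acyclic; no fixed point -/

set_option autoImplicit false

namespace H63H

open Finset H98P H98Z H98M H63F

/-- A2a (S). A cone is acyclic. PROOF: `c s = z (s.erase a)` if `a ∈ s`, else `0`. -/
theorem ac_cone {E : Type*} [Fintype E] [DecidableEq E] {K : Finset E → Prop} {a : E}
    (ha : ∀ s, K s → K (insert a s)) : AC K := by
  intro z hz hb
  refine ⟨fun s => if a ∈ s then z (s.erase a) else 0, fun s hs => ?_, fun r => ?_⟩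
  · have hs' : (if a ∈ s then z (s.erase a) else 0) ≠ 0 := hs
    by_cases h : a ∈ s
    · rw [if_pos h] at hs'
      have h1 := ha _ (hz _ hs')
      rwa [insert_erase h] at h1
    · rw [if_neg h] at hs'
      exact absurd rfl hs'
  · show ∑ e ∈ rᶜ, (if a ∈ insert e r then z ((insert e r).erase a) else 0) = z r
    by_cases har : a ∈ r
    · have h1 : ∑ e ∈ (r.erase a)ᶜ, z (insert e (r.erase a)) = 0 := hb (r.erase a)
      have h2 : (r.erase a)ᶜ = insert a rᶜ := by
        ext x
        rw [mem_compl, mem_erase, mem_insert, mem_compl]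
        constructor
        · intro h
          by_cases hx : x = a
          · exact Or.inl hx
          · exact Or.inr fun hxr => h ⟨hx, hxr⟩
        · rintro (h | h) ⟨h3, h4⟩
          · exact h3 h
          · exact h h4
      rw [h2, sum_insert (fun h => (mem_compl.1 h) har), insert_erase har] at h1
      have h3 : ∑ e ∈ rᶜ, (if a ∈ insert e r then z ((insert e r).erase a) else 0) =
          ∑ e ∈ rᶜ, z (insert e (r.erase a)) := by
        refine sum_congr rfl fun e he => ?_
        have hea : e ≠ a := by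
          rintro rfl
          exact (mem_compl.1 he) har
        rw [if_pos (mem_insert_of_mem har), erase_insert_of_ne hea]
      rw [h3]
      have h4 := eq_neg_of_add_eq_zero_right h1
      rw [h4, ZMod.neg_eq_self_mod_two]
    · rw [sum_eq_single a]
      · rw [if_pos (mem_insert_self a r), erase_insert har]
      · intro e _ hea
        rw [if_neg]
        rw [mem_insert]
        rintro (h | h)
        · exact hea h.symm
        · exact har h
      · intro h
        exact absurd (mem_compl.2 har) h

variable {V : Type*} [Fintype V] [DecidableEq V]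

/-- A2b (S). PROOF: `H63F.acy_multi` with `D` = all pairs without loops; `AC` and `Acy` as at the end of
`H63F.hyp_b`. -/
theorem ac_Kp (hV : 2 ≤ Fintype.card V) {cross : Sym2 V → Sym2 V → Prop} (hsymm : ∀ e f, cross e f → cross f e)
    (hHD : ∀ W : Finset V, HD cross W) : AC (Kp cross) := by
  classical
  set D : Finset (Sym2 V) := univ.filter fun e => ¬ e.IsDiag with hDdef
  have hD : ∀ x y : V, s(x, y) ∈ D ↔ x ≠ y := fun x y => by
    rw [hDdef, mem_filter, Sym2.mk_isDiag_iff]
    exact ⟨fun h => h.2, fun h => ⟨mem_univ _, h⟩⟩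
  have hne : D.Nonempty := by
    obtain ⟨x, y, hxy⟩ := Fintype.exists_pair_of_one_lt_card (α := V) (by omega)
    exact ⟨s(x, y), (hD x y).2 hxy⟩
  have hA : Acy cross D := by
    refine acy_multi hsymm hHD hne (fun v hv => (hD v v).1 hv rfl) fun u v w z h1 h2 _ h4 => ?_
    have h5 : u = v := by
      by_contra h
      exact h1 ((hD u v).2 h)
    have h6 : v = w := by
      by_contra h
      exact h2 ((hD v w).2 h)
    exact (hD u w).1 h4 (h5.trans h6)
  have hiff : ∀ G : Finset (Sym2 V), Kp cross G ↔ (G ⊆ D ∧ Plane cross G) := by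
    intro G
    constructor
    · rintro ⟨h1, h2⟩
      refine ⟨fun e he => ?_, h1⟩
      induction e with
      | _ x y =>
        refine (hD x y).2 ?_
        rintro rfl
        exact h2 _ he
    · rintro ⟨h1, h2⟩
      exact ⟨h2, fun v hv => (hD v v).1 (h1 hv) rfl⟩
  intro z hz hb
  obtain ⟨c, hc, hcb⟩ := hA z (fun s hs => (hiff s).1 (hz s hs)) hb
  exact ⟨c, fun s hs => (hiff s).2 (hc s hs), hcb⟩

/-- A2c (S). PROOF: `H63F.hyp_b`; a set with `Amax` has no loops by `value`, `mm_loop` (as in H63F/G5b.lean). -/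
theorem hyp_bK (hV : 2 ≤ Fintype.card V) {cross : Sym2 V → Sym2 V → Prop}
    (hsymm : ∀ e f, cross e f → cross f e) (hHD : ∀ W : Finset V, HD cross W) {T : Finset (Cut V)}
    (hT : Lam T) {μ : Cut V → ℝ} (hμ : μ ∈ Sx T) :
    AC fun G : Finset (Sym2 V) => Kp cross G ∧ Amax pc μ G := by
  classical
  have hpos : (0 : ℝ) < 2 / (Fintype.card V : ℝ) := by
    have h1 : (0 : ℝ) < (Fintype.card V : ℝ) := by
      have h2 : 0 < Fintype.card V := by omega
      exact_mod_cast h2
    positivity
  have hiff : ∀ G : Finset (Sym2 V), (Kp cross G ∧ Amax pc μ G) ↔ (Plane cross G ∧ Amax pc μ G) := by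
    intro G
    constructor
    · rintro ⟨h1, h2⟩
      exact ⟨h1.1, h2⟩
    · rintro ⟨h1, h2⟩
      refine ⟨⟨h1, fun v hv => ?_⟩, h2⟩
      have h3 := value hμ (h2 _ hv)
      rw [mm_loop] at h3
      linarith
  intro z hz hb
  obtain ⟨c, hc, hcb⟩ := hyp_b hV hsymm hHD hT hμ z (fun s hs => (hiff s).1 (hz s hs)) hb
  exact ⟨c, fun s hs => (hiff s).2 (hc s hs), hcb⟩

end H63H
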