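import Pool.Agent.Lib.H63F.F6

/-! # H63H, chunk A1: the acyclic minimax theorem with the points of the simplices of `K` only -/

set_option autoImplicit false

namespace H63H

open Finset H98P H63F

variable {E C : Type*} [Fintype E] [DecidableEq E] [Fintype C] [DecidableEq C]

/-- A1a (S). PROOF: copy of `H63F.ac_theta` (file H63F/F6a.lean, with its private lemmas); only the points of `Sx G` are
used there. -/
theorem ac_theta_on (p : E → C → ℝ) (q : C → ℝ) (L : Finset C → Prop) (hL : Dn L) (hL0 : L ∅) {G : Finset E}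
    (hG : G.Nonempty) (ha : ∀ x ∈ Sx G, AC fun T : Finset C => L T ∧ Amin p q x T) :
    AC fun T : Finset C => L T ∧ ∃ x ∈ Sx G, Amin p q x T := by
  sorry

/-- A1b (M). PROOF: copy of `H63F.minimax` (F6.lean). `θ`: `carriers K hK` (domain `K`). `ψ` as there. `ρ`:
`carriers (fun _ => True)` with `Γ G G' = K G' ∧ (K G → G' ⊆ G)` (`AC`: if `K G` it is the simplex `G' ⊆ G`, `ac_simplex`;
otherwise it is `K`). `f G H = ∑ G', ρ G G' * ∑ T, θ G' T * ψ T H` satisfies `exists_diag`; for the `s` it gives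
`ψ T s ≠ 0`, so `K s`, so `ρ s G' ≠ 0` only for `G' ⊆ s`, `card G' = card s`, `G' = s`; then `θ s T * ψ T s ≠ 0`. -/
theorem minimaxK [Nonempty E] (p : E → C → ℝ) (q : C → ℝ) (K : Finset E → Prop) (L : Finset C → Prop)
    (hK : Dn K) (hL : Dn L) (hK0 : K ∅) (hL0 : L ∅) (hKac : AC K)
    (ha : ∀ G, K G → G.Nonempty → ∀ x ∈ Sx G, AC fun T : Finset C => L T ∧ Amin p q x T)
    (hb : ∀ T, L T → ∀ μ ∈ Sx T, AC fun G : Finset E => K G ∧ Amax p μ G) :
    ∃ G : Finset E, G.Nonempty ∧ K G ∧ ∃ x ∈ Sx G, ∃ T, L T ∧ Amin p q x T ∧ ∃ μ ∈ Sx T, Amax p μ G := by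
  sorry

end H63H
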