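import Pool.Agent.Lib.H63H.A1a

/-! # H63H, chunk A1b: the acyclic minimax theorem with the points of the simplices of `K` only -/

set_option autoImplicit false

namespace H63H

open Finset H98P H63F

variable {E C : Type*} [Fintype E] [DecidableEq E] [Fintype C] [DecidableEq C]

private theorem a1b_mono {A : Type*} [Fintype A] {s t : Finset A} (h : s ⊆ t) : Sx s ⊆ Sx t := by
  rintro x ⟨h1, h2, h3⟩
  exact ⟨h1, fun e he => h2 e fun he' => he (h he'), h3⟩

private theorem a1b_ne {A : Type*} [Fintype A] [DecidableEq A] {s : Finset A} (h : s.Nonempty) :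
    (Sx s).Nonempty := by
  obtain ⟨a, ha⟩ := h
  refine ⟨Pi.single a 1, ?_, ?_, ?_⟩
  · intro e
    by_cases he : e = a
    · subst he
      rw [Pi.single_eq_same]
      exact zero_le_one
    · rw [Pi.single_eq_of_ne he]
  · intro e he
    exact Pi.single_eq_of_ne (fun h => he (by rw [h]; exact ha)) _
  · rw [Finset.sum_pi_single']
    simp

/-- A1b. The acyclic minimax theorem for an acyclic complex `K`. -/
theorem minimaxK [Nonempty E] (p : E → C → ℝ) (q : C → ℝ) (K : Finset E → Prop) (L : Finset C → Prop)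
    (hK : Dn K) (hL : Dn L) (hK0 : K ∅) (hL0 : L ∅) (hKac : AC K)
    (ha : ∀ G, K G → G.Nonempty → ∀ x ∈ Sx G, AC fun T : Finset C => L T ∧ Amin p q x T)
    (hb : ∀ T, L T → ∀ μ ∈ Sx T, AC fun G : Finset E => K G ∧ Amax p μ G) :
    ∃ G : Finset E, G.Nonempty ∧ K G ∧ ∃ x ∈ Sx G, ∃ T, L T ∧ Amin p q x T ∧ ∃ μ ∈ Sx T, Amax p μ G := by
  classical
  obtain ⟨ρ, ρ0, ρ1, ρ2⟩ := carriers (A := E) (B := E) (fun _ => True) (fun _ _ _ _ => trivial)
    (fun G H => K H ∧ (K G → H ⊆ G))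
    (fun s t hst _ _ r hr => ⟨hr.1, fun ht => (hr.2 (hK s t hst ht)).trans hst⟩)
    (fun s _ _ => ⟨hK0, fun _ => Finset.empty_subset s⟩)
    (fun s _ hs => by
      by_cases h : K s
      · have e : (fun H => K H ∧ (K s → H ⊆ s)) = fun H : Finset E => H ⊆ s := by
          funext H
          exact propext ⟨fun h1 => h1.2 h, fun h1 => ⟨hK _ _ h1 h, fun _ => h1⟩⟩
        rw [e]
        exact ac_simplex hs
      · have e : (fun H => K H ∧ (K s → H ⊆ s)) = K := by
          funext H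
          exact propext ⟨fun h1 => h1.1, fun h1 => ⟨h1, fun h2 => absurd h2 h⟩⟩
        rw [e]
        exact hKac)
  obtain ⟨θ, θ0, θ1, θ2⟩ := carriers (A := E) (B := C) K hK
    (fun G T => L T ∧ ∃ x ∈ Sx G, Amin p q x T)
    (fun s t hst _ _ r hr => ⟨hr.1, hr.2.imp fun x hx => ⟨a1b_mono hst hx.1, hx.2⟩⟩)
    (fun s _ hs => ⟨hL0, (a1b_ne hs).imp fun x hx => ⟨hx, fun S hS => absurd hS (by simp)⟩⟩)
    (fun s hKs hs => ac_theta_on p q L hL hL0 hs (ha s hKs hs))
  obtain ⟨ψ, ψ0, ψ1, ψ2⟩ := carriers (A := C) (B := E) L hL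
    (fun T G => K G ∧ ∃ μ ∈ Sx T, Amax p μ G)
    (fun s t hst _ _ r hr => ⟨hr.1, hr.2.imp fun x hx => ⟨a1b_mono hst hx.1, hx.2⟩⟩)
    (fun s _ hs => ⟨hK0, (a1b_ne hs).imp fun x hx => ⟨hx, fun S hS => absurd hS (by simp)⟩⟩)
    (fun s hLs hs => ac_psi p K hK hK0 hs (hb s hLs))
  have hne : ∀ s : Finset E, K s → s.Nonempty → ∀ T : Finset C, θ s T ≠ 0 → L T ∧ T.Nonempty := by
    intro s hKs hs T hT
    obtain ⟨h1, h2⟩ := θ1 s hKs hs T hT
    exact ⟨h1.1, Finset.card_pos.mp (by rw [h2]; exact Finset.card_pos.mpr hs)⟩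
  -- the composition `ψ θ` on `K`
  obtain ⟨g, hg⟩ : ∃ g : Finset E → Finset E → ZMod 2, ∀ G H, g G H = ∑ T, θ G T * ψ T H := ⟨_, fun _ _ => rfl⟩
  have hg0 : ∀ r, g ∅ r = if r = ∅ then 1 else 0 := by
    intro r
    rw [hg, Finset.sum_eq_single ∅]
    · rw [θ0, if_pos rfl, one_mul, ψ0]
    · intro T _ hT
      rw [θ0, if_neg hT, zero_mul]
    · intro h
      exact absurd (mem_univ _) h
  have hgb : ∀ s, K s → s.Nonempty → ∀ r, bd (g s) r = ∑ a ∈ s, g (s.erase a) r := by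
    intro s hKs hs r
    have e0 : g s = fun H => ∑ T, θ s T * ψ T H := funext fun H => hg s H
    have e1 : bd (fun H => ∑ T, θ s T * ψ T H) r = ∑ T, θ s T * bd (ψ T) r := by
      rw [bd_sum]
      refine Finset.sum_congr rfl fun T _ => ?_
      simp only [bd, Finset.mul_sum]
    have e2 : ∑ T, θ s T * bd (ψ T) r = ∑ T, θ s T * ∑ a ∈ T, ψ (T.erase a) r := by
      refine Finset.sum_congr rfl fun T _ => ?_
      by_cases hT : θ s T = 0
      · rw [hT, zero_mul, zero_mul]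
      · obtain ⟨h1, h2⟩ := hne s hKs hs T hT
        rw [ψ2 T h1 h2 r]
    have e3 := pairing (fun T => ψ T r) (θ s)
    rw [e0, e1, e2, ← e3]
    have e4 : ∀ T : Finset C, ψ T r * bd (θ s) T = ∑ a ∈ s, θ (s.erase a) T * ψ T r := by
      intro T
      rw [θ2 s hKs hs T, Finset.mul_sum]
      exact Finset.sum_congr rfl fun a _ => mul_comm _ _
    rw [Finset.sum_congr rfl fun T _ => e4 T, Finset.sum_comm]
    exact Finset.sum_congr rfl fun a _ => (hg _ _).symm
  obtain ⟨s, hs, hss⟩ := exists_diag (E := E) (fun G H => ∑ G', ρ G G' * g G' H) (by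
      intro r
      rw [Finset.sum_eq_single ∅]
      · rw [ρ0, if_pos rfl, one_mul, hg0]
      · intro T _ hT
        rw [ρ0, if_neg hT, zero_mul]
      · intro h
        exact absurd (mem_univ _) h) (by
      intro s hs r
      have hnr : ∀ G', ρ s G' ≠ 0 → K G' ∧ G'.Nonempty := by
        intro G' hG'
        obtain ⟨h1, h2⟩ := ρ1 s trivial hs G' hG'
        exact ⟨h1.1, Finset.card_pos.mp (by rw [h2]; exact Finset.card_pos.mpr hs)⟩
      have e1 : bd (fun H => ∑ G', ρ s G' * g G' H) r = ∑ G', ρ s G' * bd (g G') r := by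
        rw [bd_sum]
        refine Finset.sum_congr rfl fun T _ => ?_
        simp only [bd, Finset.mul_sum]
      have e2 : ∑ G', ρ s G' * bd (g G') r = ∑ G', ρ s G' * ∑ a ∈ G', g (G'.erase a) r := by
        refine Finset.sum_congr rfl fun G' _ => ?_
        by_cases hG' : ρ s G' = 0
        · rw [hG', zero_mul, zero_mul]
        · obtain ⟨h1, h2⟩ := hnr G' hG'
          rw [hgb G' h1 h2 r]
      have e3 := pairing (fun G' => g G' r) (ρ s)
      rw [e1, e2, ← e3]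
      have e4 : ∀ G' : Finset E, g G' r * bd (ρ s) G' = ∑ a ∈ s, ρ (s.erase a) G' * g G' r := by
        intro G'
        rw [ρ2 s trivial hs G', Finset.mul_sum]
        exact Finset.sum_congr rfl fun a _ => mul_comm _ _
      rw [Finset.sum_congr rfl fun G' _ => e4 G', Finset.sum_comm])
  obtain ⟨G', _, hG'⟩ := Finset.exists_ne_zero_of_sum_ne_zero hss
  have h1 : ρ s G' ≠ 0 := left_ne_zero_of_mul hG'
  have h2 : g G' s ≠ 0 := right_ne_zero_of_mul hG'
  obtain ⟨⟨hKG', h3⟩, h4⟩ := ρ1 s trivial hs G' h1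
  have hG'n : G'.Nonempty := Finset.card_pos.mp (by rw [h4]; exact Finset.card_pos.mpr hs)
  rw [hg] at h2
  obtain ⟨T, _, hT⟩ := Finset.exists_ne_zero_of_sum_ne_zero h2
  have hT1 : θ G' T ≠ 0 := left_ne_zero_of_mul hT
  have hT2 : ψ T s ≠ 0 := right_ne_zero_of_mul hT
  obtain ⟨hLT, hTn⟩ := hne G' hKG' hG'n T hT1
  obtain ⟨⟨_, x, hx, hx'⟩, _⟩ := θ1 G' hKG' hG'n T hT1
  obtain ⟨⟨hKs, μ, hμ, hμ'⟩, _⟩ := ψ1 T hLT hTn s hT2
  have he : G' = s := Finset.eq_of_subset_of_card_le (h3 hKs) (by rw [h4])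
  subst he
  exact ⟨G', hs, hKs, x, hx, T, hLT, hx', μ, hμ, hμ'⟩

end H63H
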