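import Pool.Agent.Lib.H63H.D

/-! # H63H, chunk A3: there is no fixed point -/

set_option autoImplicit false

namespace H63H

open Finset H98P H63F

variable {V : Type*} [Fintype V] [DecidableEq V]

private theorem A3_px (a b : V) (S : Finset V) : px s(a, b) S = if (a ∈ S ↔ b ∈ S) then 0 else 1 := by
  unfold px
  by_cases ha : a ∈ S <;> by_cases hb : b ∈ S
  · rw [if_neg, if_pos (by simp [ha, hb])]
    rintro ⟨x, hx, y, hy, h⟩
    rcases Sym2.eq_iff.1 h with ⟨h1, h2⟩ | ⟨h1, h2⟩
    · exact hy (h2 ▸ hb)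
    · exact hy (h1 ▸ ha)
  · rw [if_pos ⟨a, ha, b, hb, rfl⟩, if_neg (by simp [ha, hb])]
  · rw [if_pos ⟨b, hb, a, ha, Sym2.eq_swap⟩, if_neg (by simp [ha, hb])]
  · rw [if_neg, if_pos (by simp [ha, hb])]
    rintro ⟨x, hx, y, hy, h⟩
    rcases Sym2.eq_iff.1 h with ⟨h1, h2⟩ | ⟨h1, h2⟩
    · exact ha (h1 ▸ hx)
    · exact hb (h2 ▸ hx)

private theorem A3_ind (S : Finset V) : ∑ a : V, (if a ∈ S then (1 : ℝ) else 0) = S.card := by
  rw [Finset.sum_ite_mem, Finset.univ_inter, Finset.sum_const, nsmul_eq_mul, mul_one]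

private theorem A3_row (u : V) (S : Finset V) :
    ∑ a, px s(u, a) S = if u ∈ S then (Fintype.card V : ℝ) - S.card else S.card := by
  by_cases hu : u ∈ S
  · rw [if_pos hu]
    have h1 : ∀ a : V, px s(u, a) S = 1 - (if a ∈ S then (1 : ℝ) else 0) := by
      intro a
      rw [A3_px]
      by_cases ha : a ∈ S
      · simp [hu, ha]
      · simp [hu, ha]
    rw [Finset.sum_congr rfl fun a _ => h1 a, Finset.sum_sub_distrib, A3_ind, Finset.sum_const, Finset.card_univ,
      nsmul_eq_mul, mul_one]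
  · rw [if_neg hu]
    have h1 : ∀ a : V, px s(u, a) S = (if a ∈ S then (1 : ℝ) else 0) := by
      intro a
      rw [A3_px]
      by_cases ha : a ∈ S
      · simp [hu, ha]
      · simp [hu, ha]
    rw [Finset.sum_congr rfl fun a _ => h1 a, A3_ind]

private theorem A3_tot (S : Finset V) :
    ∑ u, ∑ a, px s(u, a) S = 2 * ((S.card : ℝ) * ((Fintype.card V : ℝ) - S.card)) := by
  rw [Finset.sum_congr rfl fun u _ => A3_row u S]
  have h1 : ∀ u : V, (if u ∈ S then (Fintype.card V : ℝ) - S.card else (S.card : ℝ)) =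
      (if u ∈ S then (1 : ℝ) else 0) * ((Fintype.card V : ℝ) - 2 * S.card) + S.card := by
    intro u
    by_cases hu : u ∈ S
    · rw [if_pos hu, if_pos hu]
      ring
    · rw [if_neg hu, if_neg hu]
      ring
  rw [Finset.sum_congr rfl fun u _ => h1 u, Finset.sum_add_distrib, ← Finset.sum_mul, A3_ind, Finset.sum_const,
    Finset.card_univ, nsmul_eq_mul]
  ring

private theorem A3_low {v : V} (S : Cut V) (h1 : S.1 ≠ {v}) (h2 : S.1 ≠ univ \ {v}) :
    2 * (Fintype.card V : ℝ) - 3 ≤ ∑ u ∈ univ.erase v, ∑ a, px s(u, a) S.1 := by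
  have h3 : ∑ u ∈ univ.erase v, ∑ a, px s(u, a) S.1 =
      2 * ((S.1.card : ℝ) * ((Fintype.card V : ℝ) - S.1.card)) -
        (if v ∈ S.1 then (Fintype.card V : ℝ) - S.1.card else S.1.card) := by
    rw [← A3_tot, ← A3_row v S.1, ← Finset.add_sum_erase univ _ (Finset.mem_univ v)]
    ring
  rw [h3]
  obtain ⟨h4, h5⟩ := S.2
  have c1 : 1 ≤ S.1.card := Finset.card_pos.2 h4
  have c2 : S.1.card < Fintype.card V := by
    rw [Finset.card_lt_iff_ne_univ]
    exact h5
  by_cases hv : v ∈ S.1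
  · rw [if_pos hv]
    have c3 : 2 ≤ S.1.card := by
      by_contra hc
      have c4 : S.1.card = 1 := by omega
      obtain ⟨w, hw⟩ := Finset.card_eq_one.1 c4
      rw [hw, Finset.mem_singleton] at hv
      exact h1 (by rw [hw, hv])
    have d3 : (2 : ℝ) ≤ S.1.card := by exact_mod_cast c3
    have d2 : (S.1.card : ℝ) + 1 ≤ Fintype.card V := by exact_mod_cast c2
    nlinarith [mul_nonneg (sub_nonneg.2 d2) (show (0 : ℝ) ≤ 2 * S.1.card - 3 by linarith)]
  · rw [if_neg hv]
    have c3 : S.1.card + 2 ≤ Fintype.card V := by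
      by_contra hc
      have c4 : S.1.card = Fintype.card V - 1 := by omega
      apply h2
      refine Finset.eq_of_subset_of_card_le (fun w hw => ?_) ?_
      · rw [Finset.mem_sdiff, Finset.mem_singleton]
        exact ⟨Finset.mem_univ _, fun h => hv (h ▸ hw)⟩
      · rw [Finset.card_sdiff_of_subset (Finset.subset_univ _), Finset.card_univ, Finset.card_singleton, c4]
    have d3 : (S.1.card : ℝ) + 2 ≤ Fintype.card V := by exact_mod_cast c3
    have d1 : (1 : ℝ) ≤ S.1.card := by exact_mod_cast c1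
    nlinarith [mul_nonneg (sub_nonneg.2 d1) (show (0 : ℝ) ≤ 2 * Fintype.card V - 2 * S.1.card - 3 by linarith)]

private theorem A3_deg {w : Sym2 V → ℝ} (hl : ∀ v, w s(v, v) = 0) : ∑ v, cutw w {v} = 2 * ∑ e, w e := by
  unfold cutw
  rw [Finset.sum_comm, Finset.mul_sum]
  refine Finset.sum_congr rfl fun e _ => ?_
  rw [← Finset.mul_sum]
  induction e using Sym2.ind with
  | _ a b =>
    by_cases hab : a = b
    · subst hab
      rw [hl a]
      ring
    · have h0 : ∀ v : V, px s(a, b) ({v} : Finset V) = (if v = a then (1 : ℝ) else 0) + (if v = b then (1 : ℝ) else 0) := by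
        intro v
        rw [A3_px]
        by_cases h1 : v = a
        · have h2 : ¬ v = b := fun h => hab (h1 ▸ h)
          rw [if_pos h1, if_neg h2, if_neg (fun h => h2
            (Finset.mem_singleton.1 (h.1 (Finset.mem_singleton.2 h1.symm))).symm), add_zero]
        · by_cases h2 : v = b
          · rw [if_neg h1, if_pos h2, if_neg (fun h => h1
              (Finset.mem_singleton.1 (h.2 (Finset.mem_singleton.2 h2.symm))).symm), zero_add]
          · rw [if_neg h1, if_neg h2, if_pos ⟨fun h => absurd (Finset.mem_singleton.1 h).symm h1,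
              fun h => absurd (Finset.mem_singleton.1 h).symm h2⟩, add_zero]
      have h1 : ∑ v : V, px s(a, b) ({v} : Finset V) = 2 := by
        rw [Finset.sum_congr rfl fun v _ => h0 v, Finset.sum_add_distrib,
          Finset.sum_ite_eq' univ a (fun _ => (1 : ℝ)), Finset.sum_ite_eq' univ b (fun _ => (1 : ℝ)),
          if_pos (Finset.mem_univ _), if_pos (Finset.mem_univ _)]
        norm_num
      rw [h1]
      ring

/-- A3 (M). PROOF. `n = card V`, `M` = the value of `mm pc μ` on `G` (the maximum). `∑ S, μ S * cutw x S = ∑ e, x e * mm e = M`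
(support of `x` in `G`), and it is the minimum `m` of `cutw x` (support of `μ` in `T`), so `m = M`. `∑ v, cutw x {v} = 2`
(no loops; `H63F/G5f.lean` has it as `g5f_sum`), so `m ≤ 2 / n`. Hence `mm pc μ e ≤ 2 / n` for ALL `e`. Sum over all ordered
pairs `(a, b)`, `a ≠ b`: `∑ S, μ S * 2 |S| (n - |S|) ≤ n (n - 1) * (2 / n) = 2 (n - 1)`; but `|S| (n - |S|) ≥ n - 1` for every cut, so
equality: `μ S ≠ 0` only for `|S| = 1` or `|S| = n - 1`, and `mm pc μ s(a, b) = 2 / n` for all `a ≠ b`. With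
`u v = μ {v} + μ (V - v)`: `mm pc μ s(a, b) = u a + u b`. For the `v` of `Lp T`: `u v = 0`, so `u a = 2 / n` for all
`a ≠ v`, and for `a ≠ b` different from `v`: `4 / n = 2 / n`. Contradiction (`n ≥ 3`). -/
theorem no_fixed (hV : 3 ≤ Fintype.card V) {G : Finset (Sym2 V)} (hG : G.Nonempty) (hl : ∀ v, s(v, v) ∉ G)
    {x : Sym2 V → ℝ} (hx : x ∈ Sx G) {T : Finset (Cut V)} (hT : Lp T)
    (hA : Amin pc (fun _ => 0) x T) {μ : Cut V → ℝ} (hμ : μ ∈ Sx T) (hM : Amax pc μ G) : False := by
  obtain ⟨-, v, hv⟩ := hT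
  obtain ⟨e0, he0⟩ := hG
  obtain ⟨hx0, hxG, hx1⟩ := hx
  obtain ⟨hm0, hmT, hm1⟩ := hμ
  set n : ℝ := (Fintype.card V : ℝ) with hn
  set M : ℝ := mm pc μ e0 with hMd
  have hn3 : (3 : ℝ) ≤ n := by
    rw [hn]
    exact_mod_cast hV
  have hle : ∀ f, mm pc μ f ≤ M := fun f => hM e0 he0 f
  have hMG : ∀ e ∈ G, mm pc μ e = M := fun e he => le_antisymm (hle e) (hM e he e0)
  have hxl : ∀ w, x s(w, w) = 0 := fun w => hxG _ (hl w)
  have s1 : ∑ e, x e * mm pc μ e = M := by
    have : ∀ e, x e * mm pc μ e = x e * M := by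
      intro e
      by_cases he : e ∈ G
      · rw [hMG e he]
      · rw [hxG e he, zero_mul, zero_mul]
    rw [Finset.sum_congr rfl fun e _ => this e, ← Finset.sum_mul, hx1, one_mul]
  have s2 : ∑ e, x e * mm pc μ e = ∑ S : Cut V, μ S * cutw x S.1 := by
    unfold mm cutw
    rw [Finset.sum_congr rfl fun e _ => Finset.mul_sum _ _ _, Finset.sum_comm]
    refine Finset.sum_congr rfl fun S _ => ?_
    rw [Finset.mul_sum]
    refine Finset.sum_congr rfl fun e _ => ?_
    unfold pc
    ring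
  have hpay : ∀ S : Cut V, pay pc (fun _ => 0) x S = cutw x S.1 := by
    intro S
    unfold pay cutw pc
    rw [add_zero]
  have s3 : ∀ w : V, M ≤ cutw x {w} := by
    intro w
    have hw : ({w} : Finset V).Nonempty ∧ ({w} : Finset V) ≠ univ := by
      refine ⟨Finset.singleton_nonempty w, fun h => ?_⟩
      have h1 := congrArg Finset.card h
      rw [Finset.card_singleton, Finset.card_univ] at h1
      omega
    have h2 : ∀ S : Cut V, μ S * cutw x S.1 ≤ μ S * cutw x {w} := by
      intro S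
      by_cases hS : S ∈ T
      · have h3 := hA S hS ⟨{w}, hw⟩
        rw [hpay, hpay] at h3
        exact mul_le_mul_of_nonneg_left h3 (hm0 S)
      · rw [hmT S hS, zero_mul, zero_mul]
    have h4 := Finset.sum_le_sum (s := univ) fun S _ => h2 S
    rw [← s2, s1, ← Finset.sum_mul, hm1, one_mul] at h4
    exact h4
  have s4 : n * M ≤ 2 := by
    have h1 := Finset.sum_le_sum (s := univ) fun w _ => s3 w
    rw [A3_deg hxl, hx1, Finset.sum_const, Finset.card_univ, nsmul_eq_mul, mul_one] at h1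
    exact h1
  have hloop : ∀ u : V, mm pc μ s(u, u) = 0 := by
    intro u
    unfold mm pc
    refine Finset.sum_eq_zero fun S _ => ?_
    rw [A3_px, if_pos Iff.rfl, mul_zero]
  have s5 : ∀ u : V, ∑ a, mm pc μ s(u, a) ≤ (n - 1) * M := by
    intro u
    rw [← Finset.add_sum_erase univ _ (Finset.mem_univ u), hloop u, zero_add]
    refine (Finset.sum_le_sum fun a _ => hle s(u, a)).trans ?_
    rw [Finset.sum_const, Finset.card_erase_of_mem (Finset.mem_univ u), Finset.card_univ, nsmul_eq_mul,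
      Nat.cast_sub (by omega), Nat.cast_one]
  have s6 : ∑ u ∈ univ.erase v, ∑ a, mm pc μ s(u, a) ≤ (n - 1) * ((n - 1) * M) := by
    refine (Finset.sum_le_sum fun u _ => s5 u).trans ?_
    rw [Finset.sum_const, Finset.card_erase_of_mem (Finset.mem_univ v), Finset.card_univ, nsmul_eq_mul,
      Nat.cast_sub (by omega), Nat.cast_one]
  have s7 : ∑ u ∈ univ.erase v, ∑ a, mm pc μ s(u, a) =
      ∑ S : Cut V, μ S * ∑ u ∈ univ.erase v, ∑ a, px s(u, a) S.1 := by
    unfold mm pc
    have a1 : ∀ u : V, ∑ a, ∑ S : Cut V, μ S * px s(u, a) S.1 = ∑ S : Cut V, μ S * ∑ a, px s(u, a) S.1 := by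
      intro u
      rw [Finset.sum_comm]
      exact Finset.sum_congr rfl fun S _ => (Finset.mul_sum _ _ _).symm
    rw [Finset.sum_congr rfl fun u _ => a1 u, Finset.sum_comm]
    exact Finset.sum_congr rfl fun S _ => (Finset.mul_sum _ _ _).symm
  have s8 : 2 * n - 3 ≤ ∑ S : Cut V, μ S * ∑ u ∈ univ.erase v, ∑ a, px s(u, a) S.1 := by
    have h1 : ∑ S : Cut V, μ S * (2 * n - 3) = 2 * n - 3 := by
      rw [← Finset.sum_mul, hm1, one_mul]
    rw [← h1]
    refine Finset.sum_le_sum fun S _ => ?_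
    by_cases hS : S ∈ T
    · exact mul_le_mul_of_nonneg_left (A3_low S (hv S hS).1 (hv S hS).2) (hm0 S)
    · rw [hmT S hS, zero_mul, zero_mul]
  rw [s7] at s6
  have s9 : 2 * n - 3 ≤ (n - 1) * ((n - 1) * M) := s8.trans s6
  have s10 : n * (2 * n - 3) ≤ (n - 1) * (n - 1) * 2 := by
    have h1 := mul_le_mul_of_nonneg_left s9 (show (0 : ℝ) ≤ n by linarith)
    have h2 : n * ((n - 1) * ((n - 1) * M)) = (n - 1) * (n - 1) * (n * M) := by ring
    rw [h2] at h1
    exact h1.trans (mul_le_mul_of_nonneg_left s4 (mul_nonneg (by linarith) (by linarith)))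
  nlinarith

end H63H
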