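import Pool.Agent.Lib.H63H.D

/-! # H63H, chunk B1: uncrossing of minimum cuts -/

set_option autoImplicit false

namespace H63H

open Finset H98P H63F

variable {V : Type*} [Fintype V] [DecidableEq V]

theorem cutw_ew (x : Sym2 V → ℝ) (S : Finset V) : cutw x S = ew x S (univ \ S) := by
  rw [H56Z.cutw_pairs]
  rfl

/-- B1a (S). Sym2 symmetry. -/
theorem ew_comm (x : Sym2 V → ℝ) (A B : Finset V) : ew x A B = ew x B A := by
  unfold ew
  rw [Finset.sum_comm]
  refine Finset.sum_congr rfl fun b _ => Finset.sum_congr rfl fun a _ => ?_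
  rw [Sym2.eq_swap]

omit [Fintype V] in
private theorem ew_left (x : Sym2 V → ℝ) {A A' : Finset V} (B : Finset V) (h : Disjoint A A') :
    ew x (A ∪ A') B = ew x A B + ew x A' B := by
  unfold ew
  rw [Finset.sum_union h]

omit [Fintype V] in
private theorem ew_right (x : Sym2 V → ℝ) (A : Finset V) {B B' : Finset V} (h : Disjoint B B') :
    ew x A (B ∪ B') = ew x A B + ew x A B' := by
  unfold ew
  rw [← Finset.sum_add_distrib]
  exact Finset.sum_congr rfl fun a _ => Finset.sum_union h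

/-- B1b (S). -/
theorem cutw_symm (x : Sym2 V → ℝ) (S : Finset V) : cutw x (univ \ S) = cutw x S := by
  rw [cutw_ew, cutw_ew, Finset.sdiff_sdiff_eq_self (Finset.subset_univ S), ew_comm]

/-- The cut of a union of two disjoint sets, with the complement written as a third set. -/
private theorem cut3 (x : Sym2 V → ℝ) {S A B : Finset V} (hS : univ \ S = A ∪ B) (h : Disjoint A B) :
    cutw x S = ew x S A + ew x S B := by
  rw [cutw_ew, hS, ew_right x S h]

private theorem dPQ (S T : Finset V) : Disjoint (S \ T) (T \ S) := by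
  rw [Finset.disjoint_left]
  intro a ha hb
  exact (Finset.mem_sdiff.1 hb).2 (Finset.mem_sdiff.1 ha).1

private theorem dIP (S T : Finset V) : Disjoint (S ∩ T) (S \ T) := by
  rw [Finset.disjoint_left]
  intro a ha hb
  exact (Finset.mem_sdiff.1 hb).2 (Finset.mem_inter.1 ha).2

private theorem dR (S T A : Finset V) (h : A ⊆ S ∪ T) : Disjoint A (univ \ (S ∪ T)) := by
  rw [Finset.disjoint_left]
  intro a ha hb
  exact (Finset.mem_sdiff.1 hb).2 (h ha)

/-- The cut of `S` in terms of the four blocks. -/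
private theorem cutS (x : Sym2 V → ℝ) (S T : Finset V) :
    cutw x S = ew x (S ∩ T) (T \ S) + ew x (S \ T) (T \ S) +
      (ew x (S ∩ T) (univ \ (S ∪ T)) + ew x (S \ T) (univ \ (S ∪ T))) := by
  have h1 : univ \ S = T \ S ∪ univ \ (S ∪ T) := by
    ext a
    simp only [Finset.mem_sdiff, Finset.mem_univ, true_and, Finset.mem_union]
    tauto
  have h2 : S ∩ T ∪ S \ T = S := by
    ext a
    simp only [Finset.mem_sdiff, Finset.mem_inter, Finset.mem_union]
    tauto
  have h3 : Disjoint (T \ S) (univ \ (S ∪ T)) :=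
    dR S T _ (fun a ha => Finset.mem_union_right _ (Finset.mem_sdiff.1 ha).1)
  rw [cut3 x h1 h3]
  conv_lhs => rw [← h2]
  rw [ew_left x _ (dIP S T), ew_left x _ (dIP S T), h2]

/-- B1c (M). The identities, from the four blocks `S ∩ T`, `S \ T`, `T \ S`, `V \ (S ∪ T)`. -/
theorem cut_id1 (x : Sym2 V → ℝ) (S T : Finset V) :
    cutw x S + cutw x T = cutw x (S ∩ T) + cutw x (S ∪ T) + 2 * ew x (S \ T) (T \ S) := by
  have hS := cutS x S T
  have hT := cutS x T S
  rw [Finset.inter_comm T S, Finset.union_comm T S, ew_comm x (T \ S) (S \ T)] at hT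
  have hI : cutw x (S ∩ T) = ew x (S ∩ T) (S \ T) + ew x (S ∩ T) (T \ S) + ew x (S ∩ T) (univ \ (S ∪ T)) := by
    have h1 : univ \ (S ∩ T) = S \ T ∪ T \ S ∪ univ \ (S ∪ T) := by
      ext a
      simp only [Finset.mem_sdiff, Finset.mem_univ, true_and, Finset.mem_union, Finset.mem_inter]
      tauto
    have h2 : Disjoint (S \ T ∪ T \ S) (univ \ (S ∪ T)) := by
      apply dR
      intro a ha
      rcases Finset.mem_union.1 ha with h | h
      · exact Finset.mem_union_left _ (Finset.mem_sdiff.1 h).1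
      · exact Finset.mem_union_right _ (Finset.mem_sdiff.1 h).1
    rw [cut3 x h1 h2, ew_right x _ (dPQ S T)]
  have hU : cutw x (S ∪ T) = ew x (S ∩ T) (univ \ (S ∪ T)) + ew x (S \ T) (univ \ (S ∪ T)) +
      ew x (T \ S) (univ \ (S ∪ T)) := by
    have h1 : S ∪ T = S ∩ T ∪ S \ T ∪ T \ S := by
      ext a
      simp only [Finset.mem_sdiff, Finset.mem_union, Finset.mem_inter]
      tauto
    have h2 : Disjoint (S ∩ T ∪ S \ T) (T \ S) := by
      rw [Finset.disjoint_left]
      intro a ha hb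
      apply (Finset.mem_sdiff.1 hb).2
      rcases Finset.mem_union.1 ha with h | h
      · exact (Finset.mem_inter.1 h).1
      · exact (Finset.mem_sdiff.1 h).1
    rw [cutw_ew]
    conv_lhs => rw [show ew x (S ∪ T) (univ \ (S ∪ T)) = ew x (S ∩ T ∪ S \ T ∪ T \ S) (univ \ (S ∪ T)) by rw [← h1]]
    rw [ew_left x _ h2, ew_left x _ (dIP S T)]
  rw [hS, hT, hI, hU]
  ring

theorem cut_id2 (x : Sym2 V → ℝ) (S T : Finset V) :
    cutw x S + cutw x T = cutw x (S \ T) + cutw x (T \ S) + 2 * ew x (S ∩ T) (univ \ (S ∪ T)) := by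
  have hS := cutS x S T
  have hT := cutS x T S
  rw [Finset.inter_comm T S, Finset.union_comm T S, ew_comm x (T \ S) (S \ T)] at hT
  have hP : ∀ S T : Finset V, cutw x (S \ T) = ew x (S \ T) (S ∩ T) + ew x (S \ T) (T \ S) +
      ew x (S \ T) (univ \ (S ∪ T)) := by
    intro S T
    have h1 : univ \ (S \ T) = S ∩ T ∪ T \ S ∪ univ \ (S ∪ T) := by
      ext a
      simp only [Finset.mem_sdiff, Finset.mem_univ, true_and, Finset.mem_union, Finset.mem_inter]
      tauto
    have h2 : Disjoint (S ∩ T ∪ T \ S) (univ \ (S ∪ T)) := by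
      apply dR
      intro a ha
      rcases Finset.mem_union.1 ha with h | h
      · exact Finset.mem_union_left _ (Finset.mem_inter.1 h).1
      · exact Finset.mem_union_right _ (Finset.mem_sdiff.1 h).1
    have h3 : Disjoint (S ∩ T) (T \ S) := by
      rw [Finset.disjoint_left]
      intro a ha hb
      exact (Finset.mem_sdiff.1 hb).2 (Finset.mem_inter.1 ha).1
    rw [cut3 x h1 h2, ew_right x _ h3]
  have h1 := hP S T
  have h2 := hP T S
  rw [Finset.inter_comm T S, Finset.union_comm T S, ew_comm x (T \ S) (S \ T), ew_comm x (T \ S) (S ∩ T)] at h2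
  rw [ew_comm x (S \ T) (S ∩ T)] at h1
  rw [hS, hT, h1, h2]
  ring

/-- B1d (S). For disjoint `A`, `B`. -/
theorem cutw_union (x : Sym2 V → ℝ) {A B : Finset V} (h : Disjoint A B) :
    cutw x (A ∪ B) = cutw x A + cutw x B - 2 * ew x A B := by
  have h1 : univ \ A = B ∪ univ \ (A ∪ B) := by
    ext a
    simp only [Finset.mem_sdiff, Finset.mem_univ, true_and, Finset.mem_union]
    have hd : a ∈ A → a ∉ B := fun ha => Finset.disjoint_left.1 h ha
    tauto
  have h2 : univ \ B = A ∪ univ \ (A ∪ B) := by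
    ext a
    simp only [Finset.mem_sdiff, Finset.mem_univ, true_and, Finset.mem_union]
    have hd : a ∈ A → a ∉ B := fun ha => Finset.disjoint_left.1 h ha
    tauto
  have hA := cut3 x h1 (dR A B B Finset.subset_union_right)
  have hB := cut3 x h2 (dR A B A Finset.subset_union_left)
  rw [ew_comm x B A] at hB
  rw [cutw_ew x (A ∪ B), ew_left x _ h, hA, hB]
  ring

/-- B1e (M). Uncrossing of two crossing minimum cuts (`x ≥ 0`). PROOF: `cut_id1`, `cut_id2`, every cut is `≥ m`. -/
theorem uncross {x : Sym2 V → ℝ} (hx : ∀ e, 0 ≤ x e) {S T : Finset V} (hS : Min x S) (hT : Min x T)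
    (hc : ¬ NonX S T) :
    Min x (S ∩ T) ∧ Min x (S \ T) ∧ Min x (T \ S) ∧ Min x (S ∪ T) ∧
      (∀ a ∈ S \ T, ∀ b ∈ T \ S, x s(a, b) = 0) ∧ ∀ a ∈ S ∩ T, ∀ b, b ∉ S ∪ T → x s(a, b) = 0 := by
  unfold NonX at hc
  push Not at hc
  obtain ⟨c1, c2, c3, c4⟩ := hc
  have nI : (S ∩ T).Nonempty := c1
  have nP : (S \ T).Nonempty := Finset.sdiff_nonempty.2 c2
  have nQ : (T \ S).Nonempty := Finset.sdiff_nonempty.2 c3
  have nU : (S ∪ T).Nonempty := nI.mono (Finset.inter_subset_left.trans Finset.subset_union_left)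
  have uI : S ∩ T ≠ univ := by
    intro h
    apply hS.2.1
    rw [Finset.eq_univ_iff_forall] at h ⊢
    exact fun a => (Finset.mem_inter.1 (h a)).1
  have uP : S \ T ≠ univ := by
    intro h
    apply hS.2.1
    rw [Finset.eq_univ_iff_forall] at h ⊢
    exact fun a => (Finset.mem_sdiff.1 (h a)).1
  have uQ : T \ S ≠ univ := by
    intro h
    apply hT.2.1
    rw [Finset.eq_univ_iff_forall] at h ⊢
    exact fun a => (Finset.mem_sdiff.1 (h a)).1
  have hew : ∀ A B : Finset V, 0 ≤ ew x A B := fun A B =>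
    Finset.sum_nonneg fun a _ => Finset.sum_nonneg fun b _ => hx _
  have e1 := cut_id1 x S T
  have e2 := cut_id2 x S T
  have mST : cutw x T = cutw x S := le_antisymm (hT.2.2 S hS.1 hS.2.1) (hS.2.2 T hT.1 hT.2.1)
  have gI := hS.2.2 _ nI uI
  have gP := hS.2.2 _ nP uP
  have gQ := hS.2.2 _ nQ uQ
  have gU := hS.2.2 _ nU c4
  have w1 := hew (S \ T) (T \ S)
  have w2 := hew (S ∩ T) (univ \ (S ∪ T))
  have hz : ∀ A B : Finset V, ew x A B = 0 → ∀ a ∈ A, ∀ b ∈ B, x s(a, b) = 0 := by
    intro A B h a ha b hb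
    have h1 := (Finset.sum_eq_zero_iff_of_nonneg fun a _ => Finset.sum_nonneg fun b _ => hx _).1 h a ha
    exact (Finset.sum_eq_zero_iff_of_nonneg fun b _ => hx _).1 h1 b hb
  refine ⟨⟨nI, uI, fun S' h1 h2 => ?_⟩, ⟨nP, uP, fun S' h1 h2 => ?_⟩, ⟨nQ, uQ, fun S' h1 h2 => ?_⟩,
    ⟨nU, c4, fun S' h1 h2 => ?_⟩, hz _ _ (by linarith), fun a ha b hb => ?_⟩
  · have := hS.2.2 S' h1 h2
    linarith
  · have := hS.2.2 S' h1 h2
    linarith
  · have := hS.2.2 S' h1 h2
    linarith
  · have := hS.2.2 S' h1 h2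
    linarith
  · exact hz _ _ (by linarith) a ha b (Finset.mem_sdiff.2 ⟨Finset.mem_univ b, hb⟩)

/-- B1f (S). The complement. -/
theorem min_compl {x : Sym2 V → ℝ} {S : Finset V} (hS : Min x S) : Min x (univ \ S) := by
  refine ⟨?_, ?_, ?_⟩
  · rw [Finset.sdiff_nonempty]
    intro h
    exact hS.2.1 (Finset.univ_subset_iff.1 h)
  · intro h
    obtain ⟨a, ha⟩ := hS.1
    have h1 := Finset.eq_univ_iff_forall.1 h a
    exact (Finset.mem_sdiff.1 h1).2 ha
  · intro S' h1 h2
    rw [cutw_symm]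
    exact hS.2.2 S' h1 h2

end H63H
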