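import Pool.Agent.Lib.H63H.A2
import Pool.Agent.Lib.H63H.B1

/-! # H63H, chunk B2: the complexes of laminar families of minimum cuts which are cones -/

set_option autoImplicit false

namespace H63H

open Finset H98P H63F

variable {V : Type*} [Fintype V] [DecidableEq V]

private theorem b2_pay (x : Sym2 V → ℝ) (S : Cut V) : pay pc (fun _ => 0) x S = cutw x S.1 := by
  unfold pay cutw pc
  simp

/-- B2a (S). `Amin` in terms of `Min`. -/
theorem amin_iff (x : Sym2 V → ℝ) (T : Finset (Cut V)) :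
    Amin pc (fun _ => 0) x T ↔ ∀ S ∈ T, Min x S.1 := by
  constructor
  · intro h S hS
    refine ⟨S.2.1, S.2.2, fun S' h1 h2 => ?_⟩
    have h3 := h S hS ⟨S', h1, h2⟩
    rw [b2_pay, b2_pay] at h3
    exact h3
  · intro h S hS S'
    rw [b2_pay, b2_pay]
    exact (h S hS).2.2 S'.1 S'.2.1 S'.2.2

private theorem b2_nonx_symm {S T : Finset V} (h : NonX S T) : NonX T S := by
  rcases h with h | h | h | h
  · exact Or.inl (by rw [inter_comm]; exact h)
  · exact Or.inr (Or.inr (Or.inl h))
  · exact Or.inr (Or.inl h)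
  · exact Or.inr (Or.inr (Or.inr (by rw [union_comm]; exact h)))

/-- A minimum cut which crosses no minimum cut is an apex. -/
private theorem b2_insert {x : Sym2 V → ℝ} {S0 : Finset V} (h0 : Min x S0) (h3 : ∀ S, Min x S → NonX S0 S)
    {T : Finset (Cut V)} (hT : Lam T) (hA : Amin pc (fun _ => 0) x T) :
    Lam (insert (⟨S0, h0.1, h0.2.1⟩ : Cut V) T) ∧
      Amin pc (fun _ => 0) x (insert (⟨S0, h0.1, h0.2.1⟩ : Cut V) T) := by
  rw [amin_iff] at hA
  constructor
  · intro S hS S' hS'
    rcases Finset.mem_insert.1 hS with rfl | hS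
    · rcases Finset.mem_insert.1 hS' with rfl | hS'
      · exact h3 _ h0
      · exact h3 _ (hA S' hS')
    · rcases Finset.mem_insert.1 hS' with rfl | hS'
      · exact b2_nonx_symm (h3 _ (hA S hS))
      · exact hT S hS S' hS'
  · rw [amin_iff]
    intro S hS
    rcases Finset.mem_insert.1 hS with rfl | hS
    · exact h0
    · exact hA S hS

/-- B2b (M). PROOF: let `S0` be a minimum cut with the smallest number of elements (`Cut V` is finite, nonempty). It crosses no
minimum cut `S` (`uncross`: `S0 ∩ S` or use `S0 \ S` is a smaller minimum cut). `ac_cone` with `a = S0`: for `T` in the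
family, `insert S0 T` is laminar and consists of minimum cuts, so it contains neither `{v}` nor its complement. -/
theorem cone1 (hV : 2 ≤ Fintype.card V) {x : Sym2 V → ℝ} (hx : ∀ e, 0 ≤ x e) {v : V} (hv : ¬ Min x {v}) :
    AC fun T : Finset (Cut V) => Lp T ∧ Amin pc (fun _ => 0) x T := by
  classical
  have hne : Nonempty (Cut V) := by
    refine ⟨⟨{v}, singleton_nonempty v, fun h => ?_⟩⟩
    have h1 := congrArg Finset.card h
    rw [card_singleton, card_univ] at h1
    omega
  obtain ⟨S1, hS1⟩ := Finite.exists_min (fun S : Cut V => cutw x S.1)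
  have hm : Min x S1.1 := ⟨S1.2.1, S1.2.2, fun S' h1 h2 => hS1 ⟨S', h1, h2⟩⟩
  obtain ⟨S0, hS0, hmin⟩ := Finset.exists_min_image (univ.filter fun S : Finset V => Min x S) Finset.card
    ⟨S1.1, by simpa using hm⟩
  have h0 : Min x S0 := (Finset.mem_filter.1 hS0).2
  have h3 : ∀ S, Min x S → NonX S0 S := by
    intro S hS
    by_contra hc
    have h4 := (uncross hx h0 hS hc).1
    have h5 := hmin (S0 ∩ S) (Finset.mem_filter.2 ⟨mem_univ _, h4⟩)
    have h6 : ¬ S0 ⊆ S := fun h => hc (Or.inr (Or.inl h))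
    have h7 : (S0 ∩ S).card < S0.card := by
      apply Finset.card_lt_card
      refine ⟨inter_subset_left, fun h => h6 fun a ha => (Finset.mem_inter.1 (h ha)).2⟩
    omega
  refine ac_cone (a := (⟨S0, h0.1, h0.2.1⟩ : Cut V)) ?_
  rintro T ⟨⟨hT, _⟩, hA⟩
  obtain ⟨h8, h9⟩ := b2_insert h0 h3 hT hA
  refine ⟨⟨h8, v, fun S hS => ?_⟩, h9⟩
  have h10 : Min x S.1 := (amin_iff x _).1 h9 S hS
  refine ⟨fun h => hv (h ▸ h10), fun h => hv ?_⟩
  have h11 := min_compl h10
  rw [h] at h11
  simpa using h11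

/-- B2c (S). PROOF: `ac_cone` with `a = S0`; the `v` of `T` is good for `insert S0 T`. -/
theorem cone2 {x : Sym2 V → ℝ} {S0 : Finset V} (h0 : Min x S0) (h1 : 2 ≤ S0.card)
    (h2 : 2 ≤ (univ \ S0).card) (h3 : ∀ S, Min x S → NonX S0 S) :
    AC fun T : Finset (Cut V) => Lp T ∧ Amin pc (fun _ => 0) x T := by
  classical
  refine ac_cone (a := (⟨S0, h0.1, h0.2.1⟩ : Cut V)) ?_
  rintro T ⟨⟨hT, v, hv⟩, hA⟩
  obtain ⟨h8, h9⟩ := b2_insert h0 h3 hT hA
  refine ⟨⟨h8, v, fun S hS => ?_⟩, h9⟩
  rcases Finset.mem_insert.1 hS with rfl | hS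
  · constructor
    · intro h
      change S0 = {v} at h
      rw [h, card_singleton] at h1
      omega
    · intro h
      change S0 = univ \ {v} at h
      rw [h] at h2
      have h10 : univ \ (univ \ {v}) = ({v} : Finset V) := by simp
      rw [h10, card_singleton] at h2
      omega
  · exact hv S hS

end H63H
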