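import Pool.Agent.Lib.H63H.B1
import Pool.Agent.Lib.H38J.A2

/-! # H63H, chunk C1: two neighbours with weight 1 (half the cut value) -/

set_option autoImplicit false

namespace H63H

open Finset H98P H63F

variable {V : Type*} [Fintype V] [DecidableEq V]

/-- Hypotheses: all cuts are at least `2`, all degrees are `2`, every nontrivial cut of value `2` is crossed by a cut of
value `2`, and there is a nontrivial cut of value `2`. -/
structure Cac (y : Sym2 V → ℝ) : Prop where
  nonneg : ∀ e, 0 ≤ y e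
  loop : ∀ v, y s(v, v) = 0
  vert : ∀ v, cutw y {v} = 2
  cut : ∀ S : Finset V, S.Nonempty → S ≠ univ → 2 ≤ cutw y S
  cr : ∀ S : Finset V, 2 ≤ S.card → 2 ≤ (univ \ S).card → cutw y S = 2 → ∃ T : Finset V, T.Nonempty ∧
    T ≠ univ ∧ cutw y T = 2 ∧ ¬ NonX S T
  ex : ∃ S : Finset V, 2 ≤ S.card ∧ 2 ≤ (univ \ S).card ∧ cutw y S = 2

omit [Fintype V] [DecidableEq V] in
private theorem ew_wv (y : Sym2 V → ℝ) (v : V) (D : Finset V) : ew y {v} D = H38J.wv y v D := by
  unfold ew H38J.wv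
  rw [Finset.sum_singleton]

private theorem card_sdiff_univ' (S : Finset V) : (univ \ S).card = Fintype.card V - S.card := by
  rw [← Finset.compl_eq_univ_sdiff, Finset.card_compl]

private theorem hx_of {y : Sym2 V → ℝ} (h : Cac y) : ∀ S : Finset V, 2 ≤ S.card →
    S.card + 2 ≤ Fintype.card V → cutw y S = 2 → ∃ T : Finset V, cutw y T = 2 ∧ ¬ NonX S T := by
  intro S h1 h2 h3
  obtain ⟨T, -, -, hT, hX⟩ := h.cr S h1 (by rw [card_sdiff_univ']; omega) h3
  exact ⟨T, hT, hX⟩

private theorem zo {y : Sym2 V → ℝ} (h : Cac y) : ∀ e, y e = 0 ∨ y e = 1 := by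
  refine H38J.zero_one h.nonneg h.loop h.vert h.cut (hx_of h) ?_
  obtain ⟨S, h1, h2, h3⟩ := h.ex
  rw [card_sdiff_univ'] at h2
  exact ⟨S, h1, by omega, h3⟩

/-- C1a (S). If `A` is tight (value 2), `v ∉ A`, `2 ≤ |A|`, `y(v : A) = 1`, and `U` tight crosses `A`, then `A ∩ U` or `A \ U` is
tight and receives all the weight: `ew y {v} _ = 1`. PROOF: `uncross A U`; if `v ∈ U` then `v ∈ U \ A`, no weight
to `A \ U`; if `v ∉ U` then `v ∉ A ∪ U`, no weight to `A ∩ U`. -/
theorem split {y : Sym2 V → ℝ} (h : Cac y) {A : Finset V} (hA : 2 ≤ A.card) {v : V} (hv : v ∉ A)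
    (hA' : 2 ≤ (univ \ A).card) (h2 : cutw y A = 2) (h1 : ew y {v} A = 1) :
    ∃ B : Finset V, B ⊂ A ∧ B.Nonempty ∧ cutw y B = 2 ∧ ew y {v} B = 1 := by
  obtain ⟨T, hTn, hTu, hT, hX⟩ := h.cr A hA hA' h2
  obtain ⟨c1, c2, c3, c4⟩ := H38J.cross_tight h.nonneg h.cut h2 hT hX
  unfold NonX at hX
  push Not at hX
  obtain ⟨x1, x2, x3, x4⟩ := hX
  have n1 : (A ∩ T).Nonempty := x1
  have n2 : (A \ T).Nonempty := by
    rw [sdiff_nonempty]
    exact x2
  have hsum : H38J.wv y v (A ∩ T) + H38J.wv y v (A \ T) = 1 := by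
    rw [← h1, ew_wv]
    unfold H38J.wv
    rw [← Finset.sum_union (disjoint_left.2 fun x hx hx' =>
      (mem_sdiff.1 hx').2 (mem_inter.1 hx).2)]
    refine Finset.sum_congr ?_ fun _ _ => rfl
    ext x
    simp only [mem_union, mem_inter, mem_sdiff]
    tauto
  by_cases hvT : v ∈ T
  · have hz : H38J.wv y v (A \ T) = 0 := by
      unfold H38J.wv
      refine Finset.sum_eq_zero fun u hu => ?_
      rw [Sym2.eq_swap]
      exact c4 u hu v (mem_sdiff.2 ⟨hvT, hv⟩)
    refine ⟨A ∩ T, ?_, n1, c1, ?_⟩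
    · obtain ⟨w, hw⟩ := n2
      rw [mem_sdiff] at hw
      exact (Finset.ssubset_iff_of_subset inter_subset_left).2 ⟨w, hw.1, fun hw' => hw.2 (mem_inter.1 hw').2⟩
    · rw [ew_wv]
      linarith
  · have hz : H38J.wv y v (A ∩ T) = 0 := by
      unfold H38J.wv
      refine Finset.sum_eq_zero fun u hu => ?_
      rw [Sym2.eq_swap]
      exact c3 u hu v hv hvT
    refine ⟨A \ T, ?_, n2, c2, ?_⟩
    · obtain ⟨w, hw⟩ := n1
      rw [mem_inter] at hw
      exact (Finset.ssubset_iff_of_subset sdiff_subset).2 ⟨w, hw.1, fun hw' => (mem_sdiff.1 hw').2 hw.2⟩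
    · rw [ew_wv]
      linarith

/-- C1b (M). PROOF. Take a tight nontrivial `S ∋ v` with the smallest number of elements (`ex`, or its complement). Let `T` be
tight and cross `S`, `v ∈ T` (else take the complement). `S ∩ T` is tight, contains `v`, is smaller than `S`, so
`S ∩ T = {v}`. `A = S \ T` is tight, `y(v : A) = 1` (`cutw_union`: `2 = 2 + 2 - 2 y(v : A)`). If `|A| ≥ 2` then `split` gives `B ⊂ A`,
and `{v} ∪ B` is tight, nontrivial, smaller than `S`. So `A = {b}`, `y s(v, b) = 1`. -/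
theorem first {y : Sym2 V → ℝ} (h : Cac y) (v : V) : ∃ b, b ≠ v ∧ y s(v, b) = 1 := by
  by_contra hcon
  push Not at hcon
  have h2 := H38J.wv_compl (h.vert v)
  unfold H38J.wv at h2
  have h3 : ∑ u ∈ ({v}ᶜ : Finset V), y s(v, u) = 0 := by
    refine Finset.sum_eq_zero fun u hu => ?_
    rw [mem_compl, mem_singleton] at hu
    rcases zo h s(v, u) with h4 | h4
    · exact h4
    · exact absurd h4 (hcon u hu)
  rw [h3] at h2
  norm_num at h2

/-- C1c (M). PROOF. `{v, b}` is tight; `3 < card V` by `ex`, so it is nontrivial. Among the tight sets `T` with `v ∈ T`, `b ∉ T`, `2 ≤ |T|`,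
`T ∪ {v, b} ≠ V` (there is one: `cr` for `{v, b}`, if necessary the complement) take one with the smallest number of
elements; `C = T \ {v}` is tight (`uncross` of `{v, b}`, `T`), `y(v : C) = 1` (`cutw_union`). If `|C| ≥ 2`: `split`, and `{v} ∪ B` is a smaller such set.
So `C = {c}`. -/
theorem second {y : Sym2 V → ℝ} (h : Cac y) {v b : V} (hb : b ≠ v) (h1 : y s(v, b) = 1) :
    ∃ c, c ≠ v ∧ c ≠ b ∧ y s(v, c) = 1 := by
  by_contra hcon
  push Not at hcon
  have h2 := H38J.wv_compl (h.vert v)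
  unfold H38J.wv at h2
  have h3 : ∑ u ∈ ({v}ᶜ : Finset V), y s(v, u) = y s(v, b) := by
    refine Finset.sum_eq_single_of_mem b ?_ fun u hu hub => ?_
    · rw [mem_compl, mem_singleton]
      exact hb
    · rw [mem_compl, mem_singleton] at hu
      rcases zo h s(v, u) with h4 | h4
      · exact h4
      · exact absurd h4 (hcon u hu hub)
  rw [h3, h1] at h2
  norm_num at h2

end H63H
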