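import Pool.Agent.Lib.H63H.C1

/-! # H63H, chunk C2: the Hamiltonian cycle -/

set_option autoImplicit false

namespace H63H

open Finset H98P H63F

variable {V : Type*} [Fintype V] [DecidableEq V]

omit [Fintype V] [DecidableEq V] in
/-- a path of `k` vertices with all weights 1 -/
private def c2P (y : Sym2 V → ℝ) (k : ℕ) (f : ℕ → V) : Prop :=
  (∀ i < k, ∀ j < k, f i = f j → i = j) ∧ ∀ i, i + 1 < k → y s(f i, f (i + 1)) = 1

private theorem c2_deg (y : Sym2 V → ℝ) (hd : ∀ v, cutw y {v} = 2) (v : V) :
    ∑ u ∈ univ \ {v}, y s(v, u) = 2 := by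
  rw [← hd v, cutw_ew]
  unfold ew
  rw [Finset.sum_singleton]

private theorem c2_ne {y : Sym2 V → ℝ} (hl : ∀ v, y s(v, v) = 0) {v b : V} (h : y s(v, b) = 1) :
    b ≠ v := by
  rintro rfl
  rw [hl] at h
  exact zero_ne_one h

/-- no third neighbour -/
private theorem c2_third {y : Sym2 V → ℝ} (h0 : ∀ e, 0 ≤ y e) (hl : ∀ v, y s(v, v) = 0)
    (hd : ∀ v, cutw y {v} = 2) {v b c : V} (hbc : b ≠ c) (hb : y s(v, b) = 1)
    (hc : y s(v, c) = 1) (u : V) (hub : u ≠ b) (huc : u ≠ c) : y s(v, u) = 0 := by
  by_cases huv : u = v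
  · rw [huv]; exact hl v
  have h1 := c2_deg y hd v
  have h2 : ({b, c, u} : Finset V) ⊆ univ \ {v} := by
    intro a ha
    simp only [Finset.mem_insert, Finset.mem_singleton] at ha
    rw [Finset.mem_sdiff, Finset.mem_singleton]
    refine ⟨Finset.mem_univ _, ?_⟩
    rcases ha with rfl | rfl | rfl
    · exact c2_ne hl hb
    · exact c2_ne hl hc
    · exact huv
  have h3 := Finset.sum_le_sum_of_subset_of_nonneg (f := fun a => y s(v, a)) h2
    (fun _ _ _ => h0 _)
  rw [h1, Finset.sum_insert, Finset.sum_insert, Finset.sum_singleton, hb, hc] at h3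
  · have := h0 s(v, u)
    linarith
  · simp only [Finset.mem_singleton]
    exact fun h => huc h.symm
  · simp only [Finset.mem_insert, Finset.mem_singleton]
    rintro (h | h)
    · exact hbc h
    · exact hub h.symm

private theorem c2_card {y : Sym2 V → ℝ} {k : ℕ} {f : ℕ → V} (h : c2P y k f) :
    k ≤ Fintype.card V := by
  have h1 : Function.Injective (fun i : Fin k => f i) := by
    intro i j hij
    exact Fin.ext (h.1 i i.2 j j.2 hij)
  have := Fintype.card_le_of_injective _ h1
  simpa using this

private theorem c2_max (y : Sym2 V → ℝ) [Nonempty V] :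
    ∃ k f, 1 ≤ k ∧ c2P y k f ∧ ∀ g, ¬ c2P y (k + 1) g := by
  classical
  obtain ⟨v⟩ := ‹Nonempty V›
  have h1 : ∃ f, c2P y 1 f := ⟨fun _ => v, fun i hi j hj _ => by omega, fun i hi => by omega⟩
  by_contra hcon
  push Not at hcon
  have h2 : ∀ k, ∃ f, c2P y (k + 1) f := by
    intro k
    induction k with
    | zero => exact h1
    | succ k ih =>
      obtain ⟨f, hf⟩ := ih
      exact hcon (k + 1) f (by omega) hf
  obtain ⟨f, hf⟩ := h2 (Fintype.card V)
  have := c2_card hf
  omega

/-- the neighbours of the last vertex are on the path -/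
private theorem c2_last {y : Sym2 V → ℝ} {k : ℕ} {f : ℕ → V} (hk : 1 ≤ k) (hf : c2P y k f)
    (hmax : ∀ g, ¬ c2P y (k + 1) g) (b : V) (hb : y s(f (k - 1), b) = 1) :
    ∃ i < k, f i = b := by
  by_contra hcon
  push Not at hcon
  refine hmax (fun i => if i < k then f i else b) ⟨?_, ?_⟩
  · intro i hi j hj hij
    by_cases h1 : i < k <;> by_cases h2 : j < k
    · simp only [h1, h2, if_true] at hij
      exact hf.1 i h1 j h2 hij
    · simp only [h1, h2, if_true, if_false] at hij
      exact absurd hij (hcon i h1)
    · simp only [h1, h2, if_true, if_false] at hij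
      exact absurd hij.symm (hcon j h2)
    · omega
  · intro i hi
    by_cases h2 : i + 1 < k
    · have h1 : i < k := by omega
      simp only [h1, h2, if_true]
      exact hf.2 i h2
    · have h1 : i < k := by omega
      have h3 : i = k - 1 := by omega
      simp only [h1, h2, if_true, if_false]
      rw [h3]
      exact hb

private theorem c2_symm {y : Sym2 V → ℝ} {a b : V} (h : y s(a, b) = 1) : y s(b, a) = 1 := by
  rw [Sym2.eq_swap]; exact h

/-- C2 (M). If every vertex has two neighbours with weight 1 (degree 2, so all other weights at it are 0), the edges of weight 1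
form a Hamiltonian cycle. PROOF. Let `l` be a longest list without repetition with consecutive pairs of weight 1
(`IsChain`). The last vertex `w` has a second neighbour `z` of weight 1; by maximality `z ∈ l`; an inner vertex of `l` has
already its two neighbours in `l` (three different neighbours of weight 1 would give degree 3), so `z` is the
first vertex. No weight leaves the set of the vertices of `l`, so by `cut` it is everything. -/
theorem ham_cycle {y : Sym2 V → ℝ} (h0 : ∀ e, 0 ≤ y e) (hl : ∀ v, y s(v, v) = 0) (hd : ∀ v, cutw y {v} = 2)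
    (hc : ∀ S : Finset V, S.Nonempty → S ≠ univ → 2 ≤ cutw y S) (hV : 3 ≤ Fintype.card V)
    (h2 : ∀ v, ∃ b c, b ≠ v ∧ c ≠ v ∧ c ≠ b ∧ y s(v, b) = 1 ∧ y s(v, c) = 1) :
    ∃ (v : V) (t : List V), (v :: t).Nodup ∧ (∀ w, w ∈ v :: t) ∧
      ((v :: t) ++ [v]).IsChain fun a b => y s(a, b) = 1 := by
  classical
  have : Nonempty V := Fintype.card_pos_iff.1 (by omega)
  obtain ⟨k, f, hk, hf, hmax⟩ := c2_max y
  -- the closing edge
  have hclose : 3 ≤ k ∧ y s(f (k - 1), f 0) = 1 := by
    obtain ⟨b, c, hb, hc', hcb, hyb, hyc⟩ := h2 (f (k - 1))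
    obtain ⟨i, hi, rfl⟩ := c2_last hk hf hmax b hyb
    obtain ⟨j, hj, rfl⟩ := c2_last hk hf hmax c hyc
    have hi1 : i ≠ k - 1 := fun h => hb (by rw [h])
    have hj1 : j ≠ k - 1 := fun h => hc' (by rw [h])
    have hij : i ≠ j := fun h => hcb (by rw [h])
    have hk3 : 3 ≤ k := by omega
    refine ⟨hk3, ?_⟩
    have key : ∀ i, i < k - 2 → y s(f (k - 1), f i) = 1 → y s(f (k - 1), f 0) = 1 := by
      intro i hi hy
      rcases Nat.eq_zero_or_pos i with h | h
      · rw [h] at hy; exact hy
      · exfalso
        have e1 : y s(f i, f (i - 1)) = 1 := by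
          have := hf.2 (i - 1) (by omega)
          have e : i - 1 + 1 = i := by omega
          rw [e] at this
          exact c2_symm this
        have e2 : y s(f i, f (i + 1)) = 1 := hf.2 i (by omega)
        have e3 : y s(f i, f (k - 1)) = 1 := c2_symm hy
        have e4 := c2_third h0 hl hd (v := f i) (b := f (i - 1)) (c := f (i + 1))
          (fun h => by have := hf.1 (i - 1) (by omega) (i + 1) (by omega) h; omega) e1 e2
          (f (k - 1)) (fun h => by have := hf.1 (k - 1) (by omega) (i - 1) (by omega) h; omega)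
          (fun h => by have := hf.1 (k - 1) (by omega) (i + 1) (by omega) h; omega)
        rw [e3] at e4
        exact one_ne_zero e4
    by_cases h : i < k - 2
    · exact key i h hyb
    · exact key j (by omega) hyc
  obtain ⟨hk3, hcl⟩ := hclose
  -- no weight leaves the cycle
  have hout : ∀ i < k, ∀ u, (∀ j < k, f j ≠ u) → y s(f i, u) = 0 := by
    intro i hi u hu
    have hp : ∃ p < k, ∃ q < k, p ≠ q ∧ y s(f i, f p) = 1 ∧ y s(f i, f q) = 1 := by
      rcases Nat.eq_zero_or_pos i with h | h
      · subst h
        exact ⟨1, by omega, k - 1, by omega, by omega, hf.2 0 (by omega), c2_symm hcl⟩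
      · have e1 : y s(f i, f (i - 1)) = 1 := by
          have := hf.2 (i - 1) (by omega)
          have e : i - 1 + 1 = i := by omega
          rw [e] at this
          exact c2_symm this
        by_cases h' : i + 1 < k
        · exact ⟨i - 1, by omega, i + 1, h', by omega, e1, hf.2 i h'⟩
        · have h3 : i = k - 1 := by omega
          refine ⟨i - 1, by omega, 0, by omega, by omega, e1, ?_⟩
          rw [h3]; exact hcl
    obtain ⟨p, hp, q, hq, hpq, e1, e2⟩ := hp
    exact c2_third h0 hl hd (fun h => hpq (hf.1 p hp q hq h)) e1 e2 u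
      (fun h => hu p hp h.symm) (fun h => hu q hq h.symm)
  have hall : ∀ u, ∃ j < k, f j = u := by
    by_contra hcon
    push Not at hcon
    obtain ⟨u, hu⟩ := hcon
    set S : Finset V := (Finset.range k).image f with hS
    have hne : S.Nonempty := ⟨f 0, Finset.mem_image.2 ⟨0, Finset.mem_range.2 (by omega), rfl⟩⟩
    have huS : u ∉ S := by
      intro h
      obtain ⟨j, hj, hju⟩ := Finset.mem_image.1 h
      exact hu j (Finset.mem_range.1 hj) hju
    have h3 := hc S hne (fun h => huS (h ▸ Finset.mem_univ u))
    have h4 : cutw y S = 0 := by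
      rw [cutw_ew]
      unfold ew
      refine Finset.sum_eq_zero fun a ha => Finset.sum_eq_zero fun b hb => ?_
      obtain ⟨i, hi, rfl⟩ := Finset.mem_image.1 ha
      refine hout i (Finset.mem_range.1 hi) b fun j hj hjb => ?_
      exact (Finset.mem_sdiff.1 hb).2 (Finset.mem_image.2 ⟨j, Finset.mem_range.2 hj, hjb⟩)
    rw [h4] at h3
    linarith
  -- the list
  have hlist : f 0 :: (List.range (k - 1)).map (fun i => f (i + 1)) = (List.range k).map f := by
    obtain ⟨m, rfl⟩ : ∃ m, k = m + 1 := ⟨k - 1, by omega⟩
    rw [Nat.add_sub_cancel, List.range_succ_eq_map]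
    simp [List.map_map, Function.comp_def]
  refine ⟨f 0, (List.range (k - 1)).map (fun i => f (i + 1)), ?_, ?_, ?_⟩
  · rw [hlist]
    refine List.Nodup.map_on ?_ List.nodup_range
    intro i hi j hj hij
    exact hf.1 i (List.mem_range.1 hi) j (List.mem_range.1 hj) hij
  · intro w
    rw [hlist]
    obtain ⟨j, hj, hjw⟩ := hall w
    exact List.mem_map.2 ⟨j, List.mem_range.2 hj, hjw⟩
  · rw [hlist]
    have e : (List.range k).map f ++ [f 0]
        = (List.range (k + 1)).map (fun i => if i < k then f i else f 0) := by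
      rw [List.range_succ, List.map_append]
      simp only [List.map_cons, List.map_nil, lt_irrefl, if_false]
      congr 1
      refine List.map_congr_left fun i hi => ?_
      rw [if_pos (List.mem_range.1 hi)]
    rw [e, List.isChain_map, List.isChain_range_succ]
    intro m hm
    by_cases h : m + 1 < k
    · simp only [hm, h, Nat.succ_eq_add_one, if_true]
      exact hf.2 m h
    · have h3 : m = k - 1 := by omega
      simp only [hm, h, Nat.succ_eq_add_one, if_true, if_false]
      rw [h3]; exact hcl

end H63H
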