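import Pool.Agent.Lib.H63F.G3
import Pool.Agent.Lib.H56Z.X0

/-!
# H63H, file D: definitions for Theorem H (helper56): a plane Hamiltonian cycle or a plane fractional Hamiltonian
cycle all of whose nontrivial cuts are larger than 2. See PROOF.md.
-/

set_option autoImplicit false

namespace H63H

open Finset H98P H63F

/-- `S` is a minimum cut for the weights `x`. -/
def Min {V : Type*} [Fintype V] [DecidableEq V] (x : Sym2 V → ℝ) (S : Finset V) : Prop :=
  S.Nonempty ∧ S ≠ univ ∧ ∀ S' : Finset V, S'.Nonempty → S' ≠ univ → cutw x S ≤ cutw x S'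

/-- The weight between `A` and `B`. -/
noncomputable def ew {V : Type*} (x : Sym2 V → ℝ) (A B : Finset V) : ℝ := ∑ a ∈ A, ∑ b ∈ B, x s(a, b)

/-- Laminar families `T` such that for some vertex `v` neither `{v}` nor its complement is in `T`. -/
def Lp {V : Type*} [Fintype V] [DecidableEq V] (T : Finset (Cut V)) : Prop :=
  Lam T ∧ ∃ v : V, ∀ S ∈ T, S.1 ≠ {v} ∧ S.1 ≠ univ \ {v}

/-- Plane sets without loops. -/
def Kp {V : Type*} [Fintype V] [DecidableEq V] (cross : Sym2 V → Sym2 V → Prop) (G : Finset (Sym2 V)) : Prop :=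
  Plane cross G ∧ ∀ v, s(v, v) ∉ G

end H63H
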