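import Pool.Agent.Lib.H63H.A1b
import Pool.Agent.Lib.H63H.A3
import Pool.Agent.Lib.H63H.B2
import Pool.Agent.Lib.H63H.C2

/-! # H63H, file F: Theorem H -/

set_option autoImplicit false

namespace H63H

open Finset H98P H98Z H98M H63F

variable {V : Type*} [Fintype V] [DecidableEq V]

/-- F1. -/
theorem core (hV : 3 ≤ Fintype.card V) {cross : Sym2 V → Sym2 V → Prop} (hsymm : ∀ e f, cross e f → cross f e)
    (hHD : ∀ W : Finset V, HD cross W) :
    ∃ G : Finset (Sym2 V), Kp cross G ∧ ∃ x ∈ Sx G, (∀ v, Min x {v}) ∧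
      ∀ S, Min x S → 2 ≤ S.card → 2 ≤ (univ \ S).card → ∃ T, Min x T ∧ ¬ NonX S T := by
  classical
  have hne : Nonempty V := Fintype.card_pos_iff.1 (by omega)
  have hneE : Nonempty (Sym2 V) := hne.map fun v => s(v, v)
  by_contra hno
  push Not at hno
  obtain ⟨G, hGn, hGK, x, hx, T, hT, hAm, μ, hμ, hAx⟩ :=
    minimaxK (E := Sym2 V) (C := Cut V) pc (fun _ => 0) (Kp cross) Lp
      (fun s t hst ht => ⟨fun e he f hf => ht.1 e (hst he) f (hst hf), fun v hv => ht.2 v (hst hv)⟩)
      (fun s t hst ht => ⟨fun S hS S' hS' => ht.1 S (hst hS) S' (hst hS'),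
        ht.2.imp fun v hv S hS => hv S (hst hS)⟩)
      ⟨fun e he => absurd he (Finset.notMem_empty e), fun v hv => absurd hv (Finset.notMem_empty _)⟩
      ⟨fun S hS => absurd hS (Finset.notMem_empty S), ⟨hne.some, fun S hS => absurd hS (Finset.notMem_empty S)⟩⟩
      (ac_Kp (by omega) hsymm hHD)
      (fun G hG _ x hx => by
        by_cases h1 : ∀ v, Min x {v}
        · obtain ⟨S, h2, h3, h4, h5⟩ := hno G hG x hx h1
          exact cone2 h2 h3 h4 h5
        · push Not at h1
          obtain ⟨v, hv⟩ := h1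
          exact cone1 (by omega) hx.1 hv)
      (fun T hT μ hμ => hyp_bK (by omega) hsymm hHD hT.1 hμ)
  exact no_fixed hV hGn hGK.2 hx hT hAm hμ hAx

private theorem fpx (a b v : V) (hab : a ≠ b) :
    px s(a, b) ({v} : Finset V) = (if v = a then (1 : ℝ) else 0) + (if v = b then (1 : ℝ) else 0) := by
  unfold px
  by_cases h1 : v = a
  · have h2 : ¬ v = b := fun h => hab (h1 ▸ h)
    have h3 : ∃ a' ∈ ({v} : Finset V), ∃ b', b' ∉ ({v} : Finset V) ∧ s(a, b) = s(a', b') :=
      ⟨a, by simp [h1], b, by rw [mem_singleton]; exact fun h => h2 h.symm, rfl⟩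
    rw [if_pos h3, if_pos h1, if_neg h2, add_zero]
  · by_cases h2 : v = b
    · have h3 : ∃ a' ∈ ({v} : Finset V), ∃ b', b' ∉ ({v} : Finset V) ∧ s(a, b) = s(a', b') :=
        ⟨b, by simp [h2], a, by rw [mem_singleton]; exact fun h => h1 h.symm, Sym2.eq_swap⟩
      rw [if_pos h3, if_neg h1, if_pos h2, zero_add]
    · have h3 : ¬ ∃ a' ∈ ({v} : Finset V), ∃ b', b' ∉ ({v} : Finset V) ∧ s(a, b) = s(a', b') := by
        rintro ⟨a', ha', b', -, h⟩
        rw [mem_singleton] at ha'
        subst ha'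
        rcases Sym2.eq_iff.1 h with ⟨h4, -⟩ | ⟨-, h4⟩
        · exact h1 h4.symm
        · exact h2 h4.symm
      rw [if_neg h3, if_neg h1, if_neg h2, add_zero]

private theorem fsum {w : Sym2 V → ℝ} (hl : ∀ v, w s(v, v) = 0) :
    ∑ v, cutw w {v} = 2 * ∑ e, w e := by
  unfold cutw
  rw [sum_comm, mul_sum]
  refine sum_congr rfl fun e _ => ?_
  induction e with
  | _ a b =>
    by_cases hab : a = b
    · subst hab
      rw [hl]
      simp
    · rw [← mul_sum]
      have h1 : ∑ v : V, px s(a, b) ({v} : Finset V) = 2 := by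
        rw [sum_congr rfl fun v _ => fpx a b v hab, sum_add_distrib]
        simp
        norm_num
      rw [h1, mul_comm]

/-- THEOREM H (helper56). -/
theorem theoremH (hV : 3 ≤ Fintype.card V) {cross : Sym2 V → Sym2 V → Prop} (hsymm : ∀ e f, cross e f → cross f e)
    (hHD : ∀ W : Finset V, HD cross W) :
    ∃ (G : Finset (Sym2 V)) (y : Sym2 V → ℝ), Plane cross G ∧ FracHam G y ∧
      ((∀ S : Finset V, 2 ≤ S.card → 2 ≤ (univ \ S).card → 2 < cutw y S) ∨
        ∃ (v : V) (t : List V), (v :: t).Nodup ∧ (∀ w, w ∈ v :: t) ∧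
          ((v :: t) ++ [v]).IsChain fun a b => s(a, b) ∈ G) := by
  classical
  obtain ⟨G, ⟨hG, hloop⟩, x, hx, hv, hcr⟩ := core hV hsymm hHD
  obtain ⟨hx0, hxs, hx1⟩ := hx
  have hn : (0 : ℝ) < Fintype.card V := by
    have : 0 < Fintype.card V := by omega
    exact_mod_cast this
  have hne : Nonempty V := Fintype.card_pos_iff.1 (by omega)
  have hsc : ∀ S : Finset V, cutw (fun e => (Fintype.card V : ℝ) * x e) S = (Fintype.card V : ℝ) * cutw x S := by
    intro S
    unfold cutw
    rw [mul_sum]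
    exact sum_congr rfl fun e _ => by ring
  have hxl : ∀ v, x s(v, v) = 0 := fun v => hxs _ (hloop v)
  -- all degrees are `2 / n`
  have hdeg : ∀ v, (Fintype.card V : ℝ) * cutw x {v} = 2 := by
    intro v
    have h1 : ∀ w, cutw x {w} = cutw x {v} := by
      intro w
      refine le_antisymm ((hv w).2.2 _ (hv v).1 (hv v).2.1) ((hv v).2.2 _ (hv w).1 (hv w).2.1)
    have h2 := fsum hxl
    rw [sum_congr rfl fun w _ => h1 w, sum_const, card_univ, nsmul_eq_mul, hx1] at h2
    linarith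
  obtain ⟨y, hy⟩ : ∃ y : Sym2 V → ℝ, y = fun e => (Fintype.card V : ℝ) * x e := ⟨_, rfl⟩
  have hyc : ∀ S : Finset V, cutw y S = (Fintype.card V : ℝ) * cutw x S := fun S => by
    rw [hy]
    exact hsc S
  have hge : ∀ S : Finset V, S.Nonempty → S ≠ univ → 2 ≤ cutw y S := by
    intro S h1 h2
    rw [hyc, ← hdeg hne.some]
    exact mul_le_mul_of_nonneg_left ((hv hne.some).2.2 S h1 h2) hn.le
  have hmin : ∀ S : Finset V, S.Nonempty → S ≠ univ → (cutw y S = 2 ↔ Min x S) := by
    intro S h1 h2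
    constructor
    · intro h3
      refine ⟨h1, h2, fun S' h4 h5 => ?_⟩
      have h6 := hge S' h4 h5
      rw [← h3, hyc, hyc] at h6
      exact le_of_mul_le_mul_left h6 hn
    · intro h3
      have h4 := h3.2.2 _ (hv hne.some).1 (hv hne.some).2.1
      refine le_antisymm ?_ (hge S h1 h2)
      rw [hyc, ← hdeg hne.some]
      exact mul_le_mul_of_nonneg_left h4 hn.le
  have hF : FracHam G y := by
    refine ⟨fun e => ?_, fun e he => ?_, hloop, fun v => ?_, hge⟩
    · rw [hy]
      exact mul_nonneg hn.le (hx0 e)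
    · rw [hy]
      simp only
      rw [hxs e he, mul_zero]
    · rw [hyc]
      exact hdeg v
  refine ⟨G, y, hG, hF, ?_⟩
  by_cases hex : ∃ S : Finset V, 2 ≤ S.card ∧ 2 ≤ (univ \ S).card ∧ cutw y S = 2
  · right
    have hneu : ∀ S : Finset V, 2 ≤ (univ \ S).card → S ≠ univ := by
      rintro S h1 rfl
      rw [sdiff_self] at h1
      simp at h1
    have hnn : ∀ S : Finset V, 2 ≤ S.card → S.Nonempty := fun S h1 => card_pos.1 (by omega)
    have hCac : Cac y := by
      refine ⟨hF.nonneg, fun v => hF.supp _ (hF.loop v), hF.vert, hge, ?_, hex⟩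
      intro S h1 h2 h3
      obtain ⟨T, h4, h5⟩ := hcr S ((hmin S (hnn S h1) (hneu S h2)).1 h3) h1 h2
      exact ⟨T, h4.1, h4.2.1, (hmin T h4.1 h4.2.1).2 h4, h5⟩
    obtain ⟨v, t, h1, h2, h3⟩ := ham_cycle hF.nonneg (fun v => hF.supp _ (hF.loop v)) hF.vert hge hV
      (fun v => by
        obtain ⟨b, h1, h2⟩ := first hCac v
        obtain ⟨c, h3, h4, h5⟩ := second hCac h1 h2
        exact ⟨b, c, h1, h3, h4, h2, h5⟩)
    refine ⟨v, t, h1, h2, h3.imp fun a b hab => ?_⟩
    by_contra h4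
    rw [hF.supp _ h4] at hab
    exact zero_ne_one hab
  · left
    intro S h1 h2
    by_contra h3
    have h4 : S.Nonempty := card_pos.1 (by omega)
    have h5 : S ≠ univ := by
      rintro rfl
      rw [sdiff_self] at h2
      simp at h2
    exact hex ⟨S, h1, h2, le_antisymm (not_lt.1 h3) (hge S h4 h5)⟩

end H63H
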