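import Pool.Agent.Lib.H63H.D
import Pool.Agent.Lib.H97W.Fin
import Pool.Agent.Lib.H96H.J1

/-! # H63H, chunk G1: strict toughness and 3-connectedness -/

set_option autoImplicit false

namespace H63H

open Finset H98P H63F

variable {V : Type*} [Fintype V] [DecidableEq V]

set_option linter.unusedSectionVars false

private theorem g1_nonneg (e : Sym2 V) (S : Finset V) : 0 ≤ px e S := H13G.px_nonneg e S

private theorem g1_zero {a b : V} {S : Finset V} (h : a ∈ S ↔ b ∈ S) : px s(a, b) S = 0 := by
  rw [H13G.px_mk, if_pos h]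

private theorem g1_one {a b : V} {S : Finset V} (ha : a ∈ S) (hb : b ∉ S) : px s(a, b) S = 1 := by
  rw [H13G.px_mk, if_neg fun h => hb (h.1 ha)]

/-- the classes outside `S` -/
private noncomputable def cls (S : Finset V) (c : V → V) (i : V) : Finset V :=
  univ.filter (fun v => v ∉ S ∧ c v = i)

private theorem mem_cls {S : Finset V} {c : V → V} {i v : V} : v ∈ cls S c i ↔ v ∉ S ∧ c v = i := by
  simp [cls]

private theorem g1_sum_in {S : Finset V} {c : V → V} {a b : V} (ha : a ∈ S) (I : Finset V) :
    ∑ i ∈ I, px s(a, b) (cls S c i) ≤ 1 := by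
  have h0 : ∀ i ∈ I, i ≠ c b → px s(a, b) (cls S c i) = 0 := by
    intro i _ hi
    apply g1_zero
    simp only [mem_cls]
    constructor
    · intro h; exact absurd ha h.1
    · intro h; exact absurd h.2.symm hi
  have h1 : ∀ i, px s(a, b) (cls S c i) ≤ 1 := by
    intro i
    unfold px
    split_ifs <;> norm_num
  by_cases hI : c b ∈ I
  · rw [Finset.sum_eq_single_of_mem (c b) hI h0]
    exact h1 _
  · rw [Finset.sum_eq_zero]
    · norm_num
    · intro i hi
      exact h0 i hi (fun h => hI (h ▸ hi))

private theorem g1_key {G : Finset (Sym2 V)} {y : Sym2 V → ℝ} (h : FracHam G y) {S : Finset V} {c : V → V}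
    (hc : ∀ u, u ∉ S → ∀ v, v ∉ S → s(u, v) ∈ G → c u = c v) (I : Finset V) (e : Sym2 V) :
    ∑ i ∈ I, y e * px e (cls S c i) ≤ ∑ v ∈ S, y e * px e {v} := by
  by_cases he : e ∈ G
  · rw [← Finset.mul_sum, ← Finset.mul_sum]
    apply mul_le_mul_of_nonneg_left _ (h.nonneg e)
    induction e using Sym2.ind with
    | _ a b =>
      have hab : a ≠ b := by
        rintro rfl
        exact h.loop a he
      have hnn : 0 ≤ ∑ v ∈ S, px s(a, b) {v} := Finset.sum_nonneg (fun v _ => g1_nonneg _ _)
      by_cases ha : a ∈ S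
      · by_cases hb : b ∈ S
        · rw [Finset.sum_eq_zero]
          · exact hnn
          · intro i _
            apply g1_zero
            simp only [mem_cls]
            constructor
            · intro h; exact absurd ha h.1
            · intro h; exact absurd hb h.1
        · refine (g1_sum_in ha I).trans ?_
          have h1 : px s(a, b) ({a} : Finset V) = 1 :=
            g1_one (Finset.mem_singleton_self a) (by simpa using hab.symm)
          rw [← h1]
          exact Finset.single_le_sum (f := fun v => px s(a, b) ({v} : Finset V))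
            (fun v _ => g1_nonneg _ _) ha
      · by_cases hb : b ∈ S
        · rw [Sym2.eq_swap]
          refine (g1_sum_in hb I).trans ?_
          have h1 : px s(b, a) ({b} : Finset V) = 1 :=
            g1_one (Finset.mem_singleton_self b) (by simpa using hab)
          rw [← h1]
          exact Finset.single_le_sum (f := fun v => px s(b, a) ({v} : Finset V))
            (fun v _ => g1_nonneg _ _) hb
        · have hcc : c a = c b := hc a ha b hb he
          rw [Finset.sum_eq_zero]
          · exact hnn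
          · intro i _
            apply g1_zero
            simp only [mem_cls]
            constructor
            · intro h; exact ⟨hb, hcc ▸ h.2⟩
            · intro h; exact ⟨ha, hcc ▸ h.2⟩
  · simp [h.supp e he]

/-- The number of values of a labelling which is constant along the edges of `G - S`, if `G - S` has an edge. -/
theorem strict_values {G : Finset (Sym2 V)} {y : Sym2 V → ℝ} (h : FracHam G y)
    (hs : ∀ S : Finset V, 2 ≤ S.card → 2 ≤ (univ \ S).card → 2 < cutw y S) {S : Finset V} (hS : 2 ≤ S.card)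
    {a b : V} (ha : a ∉ S) (hb : b ∉ S) (hab : s(a, b) ∈ G) (c : V → V)
    (hc : ∀ u, u ∉ S → ∀ v, v ∉ S → s(u, v) ∈ G → c u = c v) : ((univ \ S).image c).card < S.card := by
  have hne : a ≠ b := by
    rintro rfl
    exact h.loop a hab
  have h1 : ∑ i ∈ (univ \ S).image c, cutw y (cls S c i) ≤ ∑ v ∈ S, cutw y {v} := by
    unfold cutw
    rw [Finset.sum_comm, Finset.sum_comm (s := S)]
    exact Finset.sum_le_sum (fun e _ => g1_key h hc _ e)
  have hSn : S.Nonempty := Finset.card_pos.1 (by omega)
  have h2 : ∑ _i ∈ (univ \ S).image c, (2 : ℝ) < ∑ i ∈ (univ \ S).image c, cutw y (cls S c i) := by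
    refine Finset.sum_lt_sum ?_ ⟨c a, Finset.mem_image.2 ⟨a, Finset.mem_sdiff.2 ⟨Finset.mem_univ a, ha⟩, rfl⟩, ?_⟩
    · intro i hi
      obtain ⟨v, hv, rfl⟩ := Finset.mem_image.1 hi
      have hvS : v ∉ S := (Finset.mem_sdiff.1 hv).2
      apply h.cut
      · exact ⟨v, mem_cls.2 ⟨hvS, rfl⟩⟩
      · intro heq
        obtain ⟨s, hs⟩ := hSn
        have : s ∈ cls S c (c v) := heq ▸ Finset.mem_univ s
        exact (mem_cls.1 this).1 hs
    · apply hs
      · have h3 : ({a, b} : Finset V) ⊆ cls S c (c a) := by
          intro w hw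
          rw [Finset.mem_insert, Finset.mem_singleton] at hw
          rcases hw with rfl | rfl
          · exact mem_cls.2 ⟨ha, rfl⟩
          · exact mem_cls.2 ⟨hb, (hc a ha w hb hab).symm⟩
        have h4 := Finset.card_le_card h3
        rwa [Finset.card_pair hne] at h4
      · have h3 : S ⊆ univ \ cls S c (c a) := by
          intro w hw
          rw [Finset.mem_sdiff]
          exact ⟨Finset.mem_univ w, fun h4 => (mem_cls.1 h4).1 hw⟩
        exact hS.trans (Finset.card_le_card h3)
  have h3 : ∑ v ∈ S, cutw y {v} = 2 * (S.card : ℝ) := by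
    rw [Finset.sum_congr rfl (fun v _ => h.vert v), Finset.sum_const, nsmul_eq_mul, mul_comm]
  rw [Finset.sum_const, nsmul_eq_mul] at h2
  have h4 : ((((univ \ S).image c).card : ℕ) : ℝ) < (S.card : ℝ) := by
    have := h2.trans_le h1
    rw [h3] at this
    linarith
  exact_mod_cast h4

/-- The number of components of `G - S` from the number of values of labellings. -/
theorem comp_le_of {G : Finset (Sym2 V)} {N : ℕ} {S : Finset V}
    (ht : ∀ c : V → V, (∀ u, u ∉ S → ∀ v, v ∉ S → s(u, v) ∈ G → c u = c v) → ((univ \ S).image c).card ≤ N) :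
    Nat.card ((H97W.gr G).induce {v | v ∉ S}).ConnectedComponent ≤ N := by
  classical
  obtain ⟨H, hH⟩ : ∃ H, H = (H97W.gr G).induce {v | v ∉ S} := ⟨_, rfl⟩
  rw [← hH]
  have key := ht (fun v => if h : v ∉ S then (Quot.out (H.connectedComponentMk ⟨v, h⟩)).1 else v) ?_
  · refine le_trans ?_ key
    have h1 : Set.range (fun C : H.ConnectedComponent => (Quot.out C).1) ⊆
        (((univ \ S).image fun v => if h : v ∉ S then (Quot.out (H.connectedComponentMk ⟨v, h⟩)).1
          else v : Finset V) : Set V) := by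
      rintro _ ⟨C, rfl⟩
      rw [mem_coe, mem_image]
      refine ⟨(Quot.out C).1, mem_sdiff.2 ⟨mem_univ _, (Quot.out C).2⟩, ?_⟩
      have h2 : (Quot.out C).1 ∉ S := (Quot.out C).2
      simp only [h2, not_false_eq_true, dif_pos]
      have h3 : H.connectedComponentMk ⟨(Quot.out C).1, h2⟩ = C := by
        have : (⟨(Quot.out C).1, h2⟩ : {v | v ∉ S}) = Quot.out C := Subtype.ext rfl
        rw [this]
        exact Quot.out_eq C
      rw [h3]
    have h2 : Function.Injective fun C : H.ConnectedComponent => (Quot.out C).1 := by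
      intro C C' hC
      have h3 : Quot.out C = Quot.out C' := Subtype.ext hC
      exact (Quot.out_eq C).symm.trans ((congrArg (Quot.mk _) h3).trans (Quot.out_eq C'))
    rw [← Set.ncard_coe_finset, ← Nat.card_coe_set_eq]
    calc Nat.card H.ConnectedComponent
        = Nat.card (Set.range fun C : H.ConnectedComponent => (Quot.out C).1) :=
          (Nat.card_range_of_injective h2).symm
      _ ≤ _ := by
          rw [Nat.card_coe_set_eq, Nat.card_coe_set_eq]
          exact Set.ncard_le_ncard h1 (Set.toFinite _)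
  · intro u hu v hv huv
    simp only [hu, hv, not_false_eq_true, dif_pos]
    by_cases h : u = v
    · subst h
      rfl
    · have h1 : H.connectedComponentMk ⟨u, hu⟩ = H.connectedComponentMk ⟨v, hv⟩ := by
        apply SimpleGraph.ConnectedComponent.sound
        apply SimpleGraph.Adj.reachable
        rw [hH, SimpleGraph.comap_adj]
        change (H97W.gr G).Adj u v
        rw [SimpleGraph.fromEdgeSet_adj]
        exact ⟨mem_coe.2 huv, h⟩
      rw [h1]

/-- G1a (M). PROOF: the components `C` of `G - S` have `cutw y C ≥ 2`, and `> 2` if `2 ≤ |C|` (the complement contains `S`); their sum is at most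
`∑ v ∈ S, cutw y {v} = 2 |S|`. See `H63F.tough` (file H63F/T1a.lean) and `H97W.comp_le`. -/
theorem strict_tough {G : Finset (Sym2 V)} {y : Sym2 V → ℝ} (h : FracHam G y)
    (hs : ∀ S : Finset V, 2 ≤ S.card → 2 ≤ (univ \ S).card → 2 < cutw y S) {S : Finset V} (hS : 2 ≤ S.card)
    {a b : V} (ha : a ∉ S) (hb : b ∉ S) (hab : s(a, b) ∈ G) :
    Nat.card ((H97W.gr G).induce {v | v ∉ S}).ConnectedComponent < S.card := by
  have h1 := comp_le_of (G := G) (N := S.card - 1) (S := S) fun c hc => by
    have h2 := strict_values h hs hS ha hb hab c hc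
    omega
  omega

/-- G1b (S). PROOF: `|X| = 0`: `H97W.connected`; `|X| = 1`: `H97W.comp_le` (at most one component); `|X| = 2`: `strict_tough` if
`G - X` has an edge; otherwise it has `card V - 2 ≥ 3` components, against `H97W.comp_le`. -/
theorem three_conn {G : Finset (Sym2 V)} {y : Sym2 V → ℝ} (h : FracHam G y)
    (hs : ∀ S : Finset V, 2 ≤ S.card → 2 ≤ (univ \ S).card → 2 < cutw y S) (hV : 5 ≤ Fintype.card V)
    {X : Finset V} (hX : X.card ≤ 2) : ((H97W.gr G).induce {v | v ∉ X}).Connected := by
  classical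
  have hne : ∃ v, v ∉ X := by
    by_contra hcon
    push Not at hcon
    have h1 : X = univ := eq_univ_iff_forall.2 hcon
    rw [h1, card_univ] at hX
    omega
  obtain ⟨v0, hv0⟩ := hne
  refine { preconnected := ?_, nonempty := ⟨⟨v0, hv0⟩⟩ }
  rintro ⟨u, hu⟩ ⟨v, hv⟩
  have hu' : u ∉ X := hu
  have hv' : v ∉ X := hv
  obtain ⟨a, b, hab, ua, ub, va, vb⟩ : ∃ a b, (∀ x ∈ X, x = a ∨ x = b) ∧ u ≠ a ∧ u ≠ b ∧ v ≠ a ∧ v ≠ b := by
    have h3 : X.card = 0 ∨ X.card = 1 ∨ X.card = 2 := by omega
    rcases h3 with h3 | h3 | h3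
    · rw [card_eq_zero] at h3
      obtain ⟨a, ha⟩ : ∃ a, a ∉ ({u, v} : Finset V) := by
        by_contra hcon
        push Not at hcon
        have h4 : ({u, v} : Finset V) = univ := eq_univ_iff_forall.2 hcon
        have h5 : ({u, v} : Finset V).card ≤ 2 := card_le_two
        rw [h4, card_univ] at h5
        omega
      rw [mem_insert, mem_singleton, not_or] at ha
      refine ⟨a, a, ?_, Ne.symm ha.1, Ne.symm ha.1, Ne.symm ha.2, Ne.symm ha.2⟩
      intro x hx
      rw [h3] at hx
      exact absurd hx (notMem_empty x)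
    · obtain ⟨a, ha⟩ := card_eq_one.1 h3
      rw [ha, mem_singleton] at hu' hv'
      refine ⟨a, a, ?_, hu', hu', hv', hv'⟩
      intro x hx
      rw [ha, mem_singleton] at hx
      exact Or.inl hx
    · obtain ⟨a, b, -, ha⟩ := card_eq_two.1 h3
      rw [ha, mem_insert, mem_singleton, not_or] at hu' hv'
      refine ⟨a, b, ?_, hu'.1, hu'.2, hv'.1, hv'.2⟩
      intro x hx
      rwa [ha, mem_insert, mem_singleton] at hx
  have hXn : ∀ w, w ≠ a → w ≠ b → w ∉ X := fun w h1 h2 h3 => (hab w h3).elim h1 h2
  have h1 := H96H.three_connected hV h hs a b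
    (fun w => ∃ hw : w ∉ X, ((H97W.gr G).induce {v | v ∉ X}).Reachable ⟨u, hu⟩ ⟨w, hw⟩) (by
      intro w w' wa wb wa' wb' hww
      by_cases hww' : w = w'
      · rw [hww']
      have hw := hXn w wa wb
      have hw' := hXn w' wa' wb'
      have hadj : ((H97W.gr G).induce {v | v ∉ X}).Adj ⟨w, hw⟩ ⟨w', hw'⟩ := by
        rw [SimpleGraph.comap_adj]
        change (H97W.gr G).Adj w w'
        rw [SimpleGraph.fromEdgeSet_adj]
        exact ⟨mem_coe.2 hww, hww'⟩
      constructor
      · rintro ⟨_, hr⟩
        exact ⟨hw', hr.trans hadj.reachable⟩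
      · rintro ⟨_, hr⟩
        exact ⟨hw, hr.trans hadj.symm.reachable⟩)
  rcases h1 with h1 | h1
  · obtain ⟨_, hr⟩ := h1 v va vb
    exact hr
  · exact absurd ⟨hu, SimpleGraph.Reachable.refl _⟩ (h1 u ua ub)

end H63H
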